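import Pool.Agent.MP_48470b_gt.TM.Pack

/-! Taylor models in three variables packed in one natural number.

Slot `t = m * S + j * B + k` (`S = B * B`, width `w` bits) holds the coefficient of
`X 0 ^ (m - j - k) * X 1 ^ j * X 2 ^ k`; it is valid when `j + k ≤ m`; only `m < M` is kept. -/

open Finset

namespace Pool.Agent.MP_48470b_gt.TM

/-- `pk` as a loop -/
def hor (W n : ℕ) (f : ℕ → ℕ) : ℕ := Nat.rec 0 (fun i acc => acc + f i <<< (W * i)) n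

/-- sums of the digits of the blocks of width `W`, packed with width `v` -/
def bs (W v M0 k : ℕ) : ℕ → ℕ :=
  Nat.rec (fun x => x % M0) (fun k f x =>
    f (x &&& (2 ^ (W * 2 ^ k) - 1)) + f (x >>> (W * 2 ^ k)) <<< (v * 2 ^ k)) k

/-- stride `B`, number of degrees `M`, slot width `w`, coefficient width `u`, `B ≤ 2 ^ l` -/
structure Cfg where
  B : ℕ
  M : ℕ
  w : ℕ
  u : ℕ
  l : ℕ

/-- narrow model: packed polynomial, packed norms of the degrees, total norm, remainder -/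
structure T where
  U : ℕ
  nb : ℕ
  n : ℕ
  r : ℕ

/-- wide model -/
structure W where
  U : ℕ
  n : ℕ
  r : ℕ

/-- change the remainder -/
def T.setr (a : T) (r : ℕ) : T := ⟨a.U, a.nb, a.n, r⟩
def T.lift (a : T) : W := ⟨a.U, a.n, a.r⟩
def W.add (x y : W) : W := ⟨x.U + y.U, x.n + y.n, x.r + y.r⟩
def W.smul (x : W) (k : ℕ) : W := ⟨x.U * k, x.n * k, x.r * k⟩
def W.shl (x : W) (k : ℕ) : W := ⟨x.U <<< k, x.n <<< k, x.r <<< k⟩
def W.addr (x : W) (e : ℕ) : W := ⟨x.U, x.n, x.r + e⟩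
def W.const (k : ℕ) : W := ⟨k, k, 0⟩

namespace Cfg

variable (c : Cfg)

def S : ℕ := c.B * c.B
def N : ℕ := c.M * c.S
def v : ℕ := 2 * c.w
def Q : ℕ := 2 ^ (c.w * c.N)
def Q1 : ℕ := c.Q - 1

/-- admissible parameters -/
def Ok : Prop :=
  1 ≤ c.u ∧ 2 ≤ c.M ∧ c.M ≤ c.B ∧ c.B ≤ 2 ^ c.l ∧ c.N * 2 ^ (c.u - 1) < 2 ^ c.w - 1

instance : Decidable c.Ok := by unfold Ok; infer_instance

def blk (m : ℕ) : ℕ := Nat.rec 1 (fun m b => ones c.w (m + 2) + b <<< (c.w * c.B)) m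
/-- ones on the valid slots -/
def VO : ℕ := hor (c.w * c.S) c.M c.blk
def VM : ℕ := c.VO <<< c.u - c.VO
def Hb : ℕ := c.VO <<< (c.u - 1)
def QH : ℕ := c.Q - c.Hb
def C1 : ℕ := c.Hb - c.VO
def cnt : ℕ := c.VO % (2 ^ c.w - 1)

def mk2 (D nb r : ℕ) : T := ⟨D + c.QH, nb, nb % (2 ^ c.v - 1), r⟩
def mk1 (D r : ℕ) : T :=
  c.mk2 D (bs (c.w * c.S) c.v (2 ^ c.w - 1) c.l
    ((D ^^^ (c.C1 + (D >>> (c.u - 1) &&& c.VO))) + c.VO)) r
/-- the model with coefficients `dig w D t % 2 ^ u - 2 ^ (u - 1)` on the valid slots -/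
def mkT (D r : ℕ) : T := c.mk1 (D &&& c.VM) r

def mul (a b : T) : W :=
  ⟨a.U * b.U &&& c.Q1, a.n * b.n,
    (a.nb * b.nb) >>> (c.v * c.M) % (2 ^ c.v - 1) + (a.r * b.n + b.r * a.n + a.r * b.r)⟩
def neg (x : W) : W := ⟨c.Q - (x.U &&& c.Q1), x.n, x.r⟩
def sub (x y : W) : W := x.add (c.neg y)

/-- division by `2 ^ σ` and rounding -/
def rnd (σ : ℕ) (x : W) : T :=
  cond (Nat.blt x.n (2 ^ (σ + c.u - 1)) && Nat.ble (σ + c.u) c.w)
    (c.mkT ((x.U + c.VO <<< (σ + c.u - 1)) >>> σ) ((x.r + (c.cnt + 1) * (2 ^ σ - 1)) >>> σ))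
    (c.mkT c.Hb ((x.n + x.r) >>> σ + 1))

/-- slot of a variable -/
def sh (i : Fin 3) : ℕ := cond (Nat.beq i 0) c.S (cond (Nat.beq i 1) (c.S + c.B) (c.S + 1))
/-- `k * X i` -/
def var (i : Fin 3) (k : ℕ) : W := ⟨k <<< (c.w * c.sh i), k, 0⟩

def mask (g P q b : ℕ) : ℕ :=
  (2 ^ (c.w * g) - 1) * hor (c.w * g) P (fun k => dig 1 k b) * ones (c.w * g * P) q
/-- multiplies slot `t` by `t / g % P` -/
def wt (g P q D : ℕ) : ℕ := hor 1 c.l fun b => D &&& c.mask g P q b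
def wt1 (D : ℕ) : ℕ := c.wt c.B c.B c.M D
def wt2 (D : ℕ) : ℕ := c.wt 1 c.B (c.M * c.B) D
def wt0 (D : ℕ) : ℕ := c.wt c.S c.M 1 D - c.wt1 D - c.wt2 D
def wts (i : Fin 3) (D : ℕ) : ℕ :=
  cond (Nat.beq i 0) (c.wt0 D) (cond (Nat.beq i 1) (c.wt1 D) (c.wt2 D)) >>> (c.w * c.sh i)
/-- derivative of the polynomial, remainder times `L` -/
def der (i : Fin 3) (L : ℕ) (a : T) : W :=
  ⟨c.wts i (a.U - c.QH) + (c.Q - c.wts i c.Hb), a.n * c.M, a.r * L⟩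

/-- from `c` to a configuration `c'` with the same `B`, `w` and `c'.M ≤ c.M` -/
def cut (c' : Cfg) (a : T) : W :=
  ⟨a.U &&& c'.Q1, a.n, a.r + a.nb >>> (c.v * c'.M) % (2 ^ c.v - 1)⟩
/-- from `c` to a configuration `c'` with the same `B`, `w` and `c.M ≤ c'.M` -/
def ext (c' : Cfg) (a : T) : W := ⟨a.U + (c'.Q - c.Q), a.n, a.r⟩

/-- constant coefficient plus `2 ^ (u - 1)` -/
def c0 (a : T) : ℕ := ((a.U &&& (2 ^ c.w - 1)) + 2 ^ (c.u - 1)) % 2 ^ c.w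
/-- bound for the distance to the constant coefficient -/
def rad (a : T) : ℕ := a.n - a.nb % 2 ^ c.v + a.r

/-- bound for `2 ^ s - f * g` -/
def invE (s σ : ℕ) (f g : T) : ℕ :=
  ((c.rnd σ (c.sub (W.const (2 ^ s)) (c.mul f (g.setr 0)))).n +
    (c.rnd σ (c.sub (W.const (2 ^ s)) (c.mul f (g.setr 0)))).r) <<< σ
def invOk (s σ : ℕ) (f g : T) : Bool := Nat.ble (2 * c.invE s σ f g) (2 ^ s)
/-- model of `2 ^ s / f` from the candidate `g` -/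
def inv (s σ : ℕ) (f g : T) : T := g.setr ((2 * g.n * c.invE s σ f g) >>> s + 1)

/-! ### semantics -/

def em (t : ℕ) : ℕ := t / c.S
def ej (t : ℕ) : ℕ := t / c.B % c.B
def ek (t : ℕ) : ℕ := t % c.B
def Val (t : ℕ) : Prop := c.ej t + c.ek t ≤ c.em t

instance (t : ℕ) : Decidable (c.Val t) := by unfold Val; infer_instance

/-- coefficients read from a number -/
def ldc (D t : ℕ) : ℤ := if c.Val t then (dig c.w D t % 2 ^ c.u : ℕ) - 2 ^ (c.u - 1) else 0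
def enc (f : ℕ → ℤ) : ℤ := ∑ t ∈ range c.N, f t * 2 ^ (c.w * t)
def l1 (f : ℕ → ℤ) : ℤ := ∑ t ∈ range c.N, |f t|
/-- `U` represents the coefficients `f`, of total size at most `n` -/
def Rep (U n : ℕ) (f : ℕ → ℤ) : Prop :=
  (U : ℤ) ≡ c.enc f [ZMOD c.Q] ∧ (∀ t, ¬ c.Val t → f t = 0) ∧ c.l1 f ≤ n
def WF (a : T) : Prop := ∃ D, a = c.mkT D a.r

variable {A : Type*} [CommRing A] [Algebra ℝ A] (X : Fin 3 → A)

def mono (t : ℕ) : A := X 0 ^ (c.em t - c.ej t - c.ek t) * X 1 ^ c.ej t * X 2 ^ c.ek t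
noncomputable def ev (f : ℕ → ℤ) : A := ∑ t ∈ range c.N, (f t : ℝ) • c.mono X t
/-- the polynomial of a model -/
noncomputable def pol (a : T) : A := c.ev X (c.ldc (a.U - c.QH))

def Enc (ν : Seminorm ℝ A) (p : A) (a : T) : Prop := c.WF a ∧ ν (p - c.pol X a) ≤ a.r
def EncW (ν : Seminorm ℝ A) (p : A) (x : W) : Prop :=
  ∃ f, c.Rep x.U x.n f ∧ ν (p - c.ev X f) ≤ x.r

end Cfg

/-- submultiplicative seminorm with variables in the unit ball -/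
structure Sem {A : Type*} [CommRing A] [Algebra ℝ A] (X : Fin 3 → A) (ν : Seminorm ℝ A) :
    Prop where
  mul : ∀ a b, ν (a * b) ≤ ν a * ν b
  one : ν 1 ≤ 1
  var : ∀ i, ν (X i) ≤ 1

end Pool.Agent.MP_48470b_gt.TM
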