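import Mathlib

/-! Numbers packed in base `2 ^ w`. -/

open Finset

namespace Pool.Agent.MP_48470b_gt.TM

/-- the number with digits `f` -/
def pk (w n : ℕ) (f : ℕ → ℕ) : ℕ := ∑ t ∈ range n, f t * 2 ^ (w * t)

/-- a digit -/
def dig (w x t : ℕ) : ℕ := x / 2 ^ (w * t) % 2 ^ w

theorem dig_lt (w x t : ℕ) : dig w x t < 2 ^ w := Nat.mod_lt _ (by positivity)

theorem pk_congr {w n : ℕ} {f g : ℕ → ℕ} (h : ∀ t < n, f t = g t) : pk w n f = pk w n g :=
  sum_congr rfl fun t ht => by rw [h t (mem_range.1 ht)]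

theorem pk_split (w a b : ℕ) (f : ℕ → ℕ) :
    pk w (a + b) f = pk w a f + 2 ^ (w * a) * pk w b fun t => f (a + t) := by
  simp only [pk, sum_range_add, mul_sum, mul_add, pow_add]
  congr 1
  exact sum_congr rfl fun t _ => by ring

theorem pk_lt {w n : ℕ} {f : ℕ → ℕ} (h : ∀ t < n, f t < 2 ^ w) : pk w n f < 2 ^ (w * n) := by
  induction n with
  | zero => simp [pk]
  | succ n ih =>
    have h1 := ih fun s hs => h s (by omega)
    have h2 : (f n + 1) * 2 ^ (w * n) ≤ 2 ^ w * 2 ^ (w * n) :=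
      Nat.mul_le_mul_right _ (h n (by omega))
    rw [pk, sum_range_succ, mul_add, pow_add, mul_one, mul_comm (2 ^ (w * n))]
    rw [add_mul, one_mul] at h2
    unfold pk at h1
    omega

theorem pk_dig (w n x : ℕ) : pk w n (dig w x) = x % 2 ^ (w * n) := by
  induction n with
  | zero => simp [pk, Nat.mod_one]
  | succ n ih =>
    rw [pk, sum_range_succ, ← pk, ih, mul_add, pow_add, Nat.mod_mul, mul_one, dig,
      mul_comm (2 ^ (w * n))]

theorem dig_mod {w x n t : ℕ} (ht : t < n) : dig w (x % 2 ^ (w * n)) t = dig w x t := by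
  unfold dig
  obtain ⟨c, rfl⟩ := Nat.exists_eq_add_of_lt ht
  rw [show w * (t + c + 1) = w * t + (w + w * c) by ring, pow_add,
    Nat.mod_mul_right_div_self, pow_add, Nat.mod_mul_right_mod]

theorem pk_mod {w a b : ℕ} {f : ℕ → ℕ} (h : ∀ t < a, f t < 2 ^ w) :
    pk w (a + b) f % 2 ^ (w * a) = pk w a f := by
  rw [pk_split, Nat.add_mul_mod_self_left, Nat.mod_eq_of_lt (pk_lt h)]

theorem pk_div {w a b : ℕ} {f : ℕ → ℕ} (h : ∀ t < a, f t < 2 ^ w) :
    pk w (a + b) f / 2 ^ (w * a) = pk w b fun t => f (a + t) := by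
  rw [pk_split, Nat.add_mul_div_left _ _ (by positivity), Nat.div_eq_of_lt (pk_lt h), zero_add]

theorem dig_pk {w n t : ℕ} {f : ℕ → ℕ} (h : ∀ t < n, f t < 2 ^ w) (ht : t < n) :
    dig w (pk w n f) t = f t := by
  obtain ⟨c, rfl⟩ := Nat.exists_eq_add_of_lt ht
  have h1 := pk_mod (w := w) (a := 1) (b := c) (f := fun s => f (t + s))
    fun s hs => h _ (by omega)
  rw [mul_one] at h1
  rw [dig, add_assoc, pk_div fun s hs => h s (by omega), add_comm c 1, h1]
  simp [pk]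

theorem dig_land (w x y t : ℕ) : dig w (x &&& y) t = dig w x t &&& dig w y t := by
  refine Nat.eq_of_testBit_eq fun i => ?_
  unfold dig
  simp only [Nat.testBit_and, Nat.testBit_mod_two_pow, Nat.testBit_div_two_pow]
  cases decide (i < w) <;> simp

theorem land_pk {w n : ℕ} {g : ℕ → ℕ} (h : ∀ t < n, g t < 2 ^ w) (x : ℕ) :
    x &&& pk w n g = pk w n fun t => dig w x t &&& g t := by
  have h1 : x &&& pk w n g < 2 ^ (w * n) := lt_of_le_of_lt Nat.and_le_right (pk_lt h)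
  rw [← Nat.mod_eq_of_lt h1, ← pk_dig]
  exact pk_congr fun t ht => by rw [dig_land, dig_pk h ht]

theorem dig_shr {w k u : ℕ} (h : k + u ≤ w) (x t : ℕ) :
    dig w (x / 2 ^ k) t % 2 ^ u = dig w x t / 2 ^ k % 2 ^ u := by
  refine Nat.eq_of_testBit_eq fun i => ?_
  unfold dig
  simp only [Nat.testBit_mod_two_pow, Nat.testBit_div_two_pow]
  by_cases hi : i < u
  · rw [decide_eq_true (show i < w by omega), decide_eq_true (show i + k < w by omega),
      show i + w * t + k = i + k + w * t by ring]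
  · simp [hi]

theorem pk_add (w n : ℕ) (f g : ℕ → ℕ) : pk w n f + pk w n g = pk w n fun t => f t + g t := by
  simp only [pk, add_mul, sum_add_distrib]

theorem pk_mul (w n : ℕ) (f : ℕ → ℕ) (c : ℕ) : pk w n f * c = pk w n fun t => f t * c := by
  simp only [pk, sum_mul]
  exact sum_congr rfl fun t _ => by ring

theorem pk_sub {w n : ℕ} {f g : ℕ → ℕ} (h : ∀ t < n, g t ≤ f t) :
    pk w n f - pk w n g = pk w n fun t => f t - g t := by
  have : pk w n f = (pk w n fun t => f t - g t) + pk w n g := by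
    rw [pk_add]; exact pk_congr fun t ht => (Nat.sub_add_cancel (h t ht)).symm
  omega

theorem pk_modEq (w n : ℕ) (f : ℕ → ℕ) : pk w n f ≡ ∑ t ∈ range n, f t [MOD 2 ^ w - 1] := by
  have h1 : 2 ^ w ≡ 1 [MOD 2 ^ w - 1] :=
    ((Nat.modEq_iff_dvd' Nat.one_le_two_pow).2 dvd_rfl).symm
  refine Nat.ModEq.sum fun t _ => ?_
  have h2 := (h1.pow t).mul_left (f t)
  rwa [one_pow, mul_one, ← pow_mul] at h2

theorem pk_sum {w n : ℕ} {f : ℕ → ℕ} (h : ∑ t ∈ range n, f t < 2 ^ w - 1) :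
    pk w n f % (2 ^ w - 1) = ∑ t ∈ range n, f t := by
  rw [pk_modEq w n f, Nat.mod_eq_of_lt h]

theorem sum_range_mul' {M : Type*} [AddCommMonoid M] (a b : ℕ) (g : ℕ → M) :
    ∑ t ∈ range (a * b), g t = ∑ i ∈ range a, ∑ j ∈ range b, g (i * b + j) := by
  induction a with
  | zero => simp
  | succ a ih => rw [add_mul, one_mul, sum_range_add, ih, sum_range_succ]

theorem pk_pk (w a b : ℕ) (f : ℕ → ℕ) :
    pk w (a * b) f = pk (w * b) a fun i => pk w b fun j => f (i * b + j) := by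
  simp only [pk, sum_range_mul', sum_mul]
  refine sum_congr rfl fun i _ => sum_congr rfl fun j _ => ?_
  rw [mul_add, pow_add]
  ring_nf

/-- the number with all digits equal to one -/
def ones (w n : ℕ) : ℕ := Nat.div (Nat.sub (Nat.pow 2 (Nat.mul w n)) 1) (Nat.sub (Nat.pow 2 w) 1)

theorem ones_eq {w : ℕ} (hw : 0 < w) (n : ℕ) : ones w n = pk w n fun _ => 1 := by
  have h2 : 2 ≤ 2 ^ w := by simpa using Nat.pow_le_pow_right (n := 2) two_pos hw
  have := Nat.geomSum_eq h2 n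
  simp only [pk, one_mul, pow_mul]
  rw [this, ← pow_mul]
  rfl

/-- the high part of a product of two packed numbers -/
theorem tail_eq {v B : ℕ} {b b' : ℕ → ℕ}
    (h : (∑ m ∈ range B, b m) * ∑ m ∈ range B, b' m < 2 ^ v - 1) :
    pk v B b * pk v B b' / 2 ^ (v * B) % (2 ^ v - 1)
      = ∑ p ∈ (range B ×ˢ range B).filter (fun p => B ≤ p.1 + p.2), b p.1 * b' p.2 := by
  rw [sum_mul_sum, ← sum_product'] at h
  have e : pk v B b * pk v B b' =
      ∑ p ∈ (range B ×ˢ range B).filter (fun p => ¬ B ≤ p.1 + p.2),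
        b p.1 * b' p.2 * 2 ^ (v * (p.1 + p.2)) + 2 ^ (v * B) *
      ∑ p ∈ (range B ×ˢ range B).filter (fun p => B ≤ p.1 + p.2),
        b p.1 * b' p.2 * 2 ^ (v * (p.1 + p.2 - B)) := by
    rw [pk, pk, sum_mul_sum, ← sum_product', ← sum_filter_not_add_sum_filter _
      (fun p : ℕ × ℕ => B ≤ p.1 + p.2), mul_sum]
    congr 1
    · exact sum_congr rfl fun p _ => by ring
    · refine sum_congr rfl fun p hp => ?_
      obtain ⟨q, hq⟩ := Nat.exists_eq_add_of_le (mem_filter.1 hp).2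
      rw [hq, Nat.add_sub_cancel_left]
      have : 2 ^ (v * p.1) * 2 ^ (v * p.2) = 2 ^ (v * B) * 2 ^ (v * q) := by
        rw [← pow_add, ← mul_add, hq, mul_add, pow_add]
      calc _ = b p.1 * b' p.2 * (2 ^ (v * p.1) * 2 ^ (v * p.2)) := by ring
        _ = _ := by rw [this]; ring
  have l : ∑ p ∈ (range B ×ˢ range B).filter (fun p => ¬ B ≤ p.1 + p.2),
      b p.1 * b' p.2 * 2 ^ (v * (p.1 + p.2)) < 2 ^ (v * B) := by
    rcases B with _ | B
    · simp
    calc _ ≤ ∑ p ∈ (range (B + 1) ×ˢ range (B + 1)).filter (fun p => ¬ B + 1 ≤ p.1 + p.2),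
          b p.1 * b' p.2 * 2 ^ (v * B) := sum_le_sum fun p hp => Nat.mul_le_mul_left _
            (Nat.pow_le_pow_right two_pos (Nat.mul_le_mul_left _
              (by have := (mem_filter.1 hp).2; omega)))
      _ ≤ (∑ p ∈ range (B + 1) ×ˢ range (B + 1), b p.1 * b' p.2) * 2 ^ (v * B) := by
          rw [← sum_mul]
          exact Nat.mul_le_mul_right _ (sum_le_sum_of_subset (filter_subset _ _))
      _ < 2 ^ v * 2 ^ (v * B) := Nat.mul_lt_mul_of_pos_right (by omega) (by positivity)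
      _ = _ := by rw [← pow_add]; ring_nf
  rw [e, Nat.add_mul_div_left _ _ (by positivity), Nat.div_eq_of_lt l, zero_add]
  have h1 : 2 ^ v ≡ 1 [MOD 2 ^ v - 1] :=
    ((Nat.modEq_iff_dvd' Nat.one_le_two_pow).2 dvd_rfl).symm
  have h2 : ∑ p ∈ (range B ×ˢ range B).filter (fun p => B ≤ p.1 + p.2),
      b p.1 * b' p.2 * 2 ^ (v * (p.1 + p.2 - B)) ≡
      ∑ p ∈ (range B ×ˢ range B).filter (fun p => B ≤ p.1 + p.2), b p.1 * b' p.2
      [MOD 2 ^ v - 1] := Nat.ModEq.sum fun p _ => by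
    have h2 := (h1.pow (p.1 + p.2 - B)).mul_left (b p.1 * b' p.2)
    rwa [one_pow, mul_one, ← pow_mul] at h2
  rw [h2, Nat.mod_eq_of_lt]
  exact lt_of_le_of_lt (sum_le_sum_of_subset (filter_subset _ _)) h

end Pool.Agent.MP_48470b_gt.TM
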