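import Pool.Agent.MP_48470b_gt.TM.Ops

/-! Soundness of the derivative. -/

open Finset

namespace Pool.Agent.MP_48470b_gt.TM

namespace Cfg

variable {c : Cfg}

theorem mask_eq {g P : ℕ} (hw : 0 < c.w) (hg : 0 < g) (hP : 0 < P) (q b : ℕ) :
    c.mask g P q b = pk c.w (q * (P * g)) fun t => dig 1 (t / g % P) b * (2 ^ c.w - 1) := by
  have h1 : 2 ^ (c.w * g) - 1 = pk c.w g fun _ => 1 * (2 ^ c.w - 1) := by
    rw [← pk_mul, ← ones_eq hw]
    exact (Nat.div_mul_cancel (by simpa [pow_mul] using Nat.sub_dvd_pow_sub_pow (2 ^ c.w) 1 g)).symm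
  rw [mask, hor_eq, ones_eq (by positivity), mul_comm _ (pk _ q _), pk_mul, pk_pk,
    show c.w * (P * g) = c.w * g * P by ring]
  refine pk_congr fun i _ => ?_
  rw [one_mul, mul_comm, pk_mul, pk_pk]
  refine pk_congr fun j hj => ?_
  rw [h1, mul_comm, pk_mul]
  refine pk_congr fun k hk => ?_
  rw [show i * (P * g) + (j * g + k) = k + g * (j + P * i) by ring, Nat.add_mul_div_left _ _ hg,
    Nat.div_eq_of_lt hk, zero_add, Nat.add_mul_mod_self_left, Nat.mod_eq_of_lt hj]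
  ring

theorem wt_eq {g P q : ℕ} (hw : 0 < c.w) (hg : 0 < g) (hP : 0 < P) (hl : P ≤ 2 ^ c.l)
    (hN : q * (P * g) = c.N) {e : ℕ → ℕ} (he : ∀ t, e t < 2 ^ c.w) :
    c.wt g P q (pk c.w c.N e) = pk c.w c.N fun t => e t * (t / g % P) := by
  have h1 : ∀ b, pk c.w c.N e &&& c.mask g P q b =
      pk c.w c.N fun t => e t * dig 1 (t / g % P) b := by
    intro b
    have h2 : ∀ t, dig 1 (t / g % P) b = 0 ∨ dig 1 (t / g % P) b = 1 := fun t => by
      have := dig_lt 1 (t / g % P) b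
      omega
    rw [mask_eq hw hg hP, hN, land_pk fun t _ => by
      have : 0 < 2 ^ c.w := by positivity
      rcases h2 t with h | h <;> rw [h] <;> omega]
    refine pk_congr fun t ht => ?_
    rw [dig_pk (fun t _ => he t) ht]
    rcases h2 t with h | h <;> rw [h]
    · simp
    · rw [one_mul, mul_one, Nat.and_two_pow_sub_one_eq_mod, Nat.mod_eq_of_lt (he t)]
  rw [wt, hor_eq, pk_congr fun b _ => h1 b]
  simp only [pk, sum_mul]
  rw [sum_comm]
  refine sum_congr rfl fun t _ => ?_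
  have h3 := pk_dig 1 c.l (t / g % P)
  rw [one_mul, Nat.mod_eq_of_lt ((Nat.mod_lt _ hP).trans_le hl)] at h3
  conv_rhs => rw [← h3, pk, mul_sum, sum_mul]
  exact sum_congr rfl fun b _ => by ring

/-- exponent of the variable `i` -/
def ex (c : Cfg) (i : Fin 3) (t : ℕ) : ℕ :=
  if i = 0 then c.em t - c.ej t - c.ek t else if i = 1 then c.ej t else c.ek t

theorem ex_le (i : Fin 3) {t : ℕ} (hv : c.Val t) : c.ex i t ≤ c.em t := by
  unfold Val at hv
  unfold ex
  split_ifs <;> omega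

theorem sh_le (hc : c.Ok) (i : Fin 3) : c.sh i ≤ c.N :=
  ((lt_N_iff hc.B_pos).2 ((sh_eq hc i).1 ▸ hc.2.1)).le

theorem wts_eq (hc : c.Ok) (i : Fin 3) {e : ℕ → ℕ} (he : ∀ t, e t < 2 ^ c.u)
    (hv : ∀ t, ¬ c.Val t → e t = 0) :
    c.wts i (pk c.w c.N e) =
      pk c.w (c.N - c.sh i) fun t => e (c.sh i + t) * c.ex i (c.sh i + t) := by
  have hw : 0 < c.w := by have := hc.u_lt; omega
  have hB := hc.B_pos
  have hM : 0 < c.M := by have := hc.2.1; omega
  have he' : ∀ t, e t < 2 ^ c.w := fun t => (he t).trans hc.ult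
  have h1 : c.wt1 (pk c.w c.N e) = pk c.w c.N fun t => e t * c.ej t :=
    wt_eq hw hB hB hc.2.2.2.1 rfl he'
  have h2 : c.wt2 (pk c.w c.N e) = pk c.w c.N fun t => e t * c.ek t := by
    rw [wt2, wt_eq hw one_pos hB hc.2.2.2.1 (by rw [N, S]; ring) he']
    simp only [Nat.div_one, ek]
  have h0 : c.wt0 (pk c.w c.N e) = pk c.w c.N fun t => e t * (c.em t - c.ej t - c.ek t) := by
    rw [wt0, h1, h2, wt_eq hw (show 0 < c.S from Nat.mul_pos hB hB) hM (hc.2.2.1.trans hc.2.2.2.1)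
      (one_mul _) he', pk_congr (g := fun t => e t * c.em t) fun t ht => by
        rw [← em, Nat.mod_eq_of_lt ((lt_N_iff hB).1 ht)],
      pk_sub (f := fun t => e t * c.em t) fun t _ => ?_, pk_sub fun t _ => ?_]
    · simp only [Nat.mul_sub]
    all_goals
      by_cases h : c.Val t
      · try rw [← Nat.mul_sub]
        exact Nat.mul_le_mul_left _ (by unfold Val at h; omega)
      · simp [hv t h]
  have h3 : cond (Nat.beq i 0) (c.wt0 (pk c.w c.N e)) (cond (Nat.beq i 1) (c.wt1 (pk c.w c.N e))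
      (c.wt2 (pk c.w c.N e))) = pk c.w c.N fun t => e t * c.ex i t := by
    fin_cases i
    · exact h0
    · exact h1
    · exact h2
  rw [wts, h3, Nat.shiftRight_eq_div_pow]
  conv_lhs => rw [← Nat.add_sub_cancel' (sh_le hc i)]
  refine pk_div fun t ht => ?_
  by_cases h : c.Val t
  · have h4 : c.ex i t ≤ c.B :=
      (ex_le i h).trans (((lt_N_iff hB).1 (ht.trans_le (sh_le hc i))).le.trans hc.2.2.1)
    exact (Nat.mul_le_mul (he t).le h4).trans_lt (mul_comm c.B _ ▸ hc.bu)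
  · simp [hv t h]

/-- lowering an exponent -/
theorem lower (hc : c.Ok) (i : Fin 3) {t : ℕ} (hv : c.Val t) (h : c.ex i t ≠ 0) :
    ∃ s, t = c.sh i + s ∧ c.Val s ∧ ∀ j, c.ex j s = c.ex j t - if j = i then 1 else 0 := by
  have h1 := c.dec t
  have h2 : c.ej t < c.B := Nat.mod_lt _ hc.B_pos
  have h3 : c.ek t < c.B := Nat.mod_lt _ hc.B_pos
  unfold Val at hv
  fin_cases i
  · simp only [ex, Fin.zero_eta, if_true] at h
    obtain ⟨m, hm⟩ : ∃ m, c.em t = m + 1 := ⟨c.em t - 1, by omega⟩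
    obtain ⟨k1, k2, k3⟩ := comp (m := m) h2 h3
    refine ⟨_, ?_, by rw [Val, k1, k2, k3]; omega, fun j => ?_⟩
    · rw [hm, add_mul] at h1
      simp only [sh, Nat.beq, cond_true]
      omega
    · fin_cases j <;> simp [ex, k1, k2, k3]
      omega
  · simp only [ex, Fin.mk_one, one_ne_zero, if_true, if_false] at h
    obtain ⟨m, hm⟩ : ∃ m, c.em t = m + 1 := ⟨c.em t - 1, by omega⟩
    obtain ⟨n, hn⟩ : ∃ n, c.ej t = n + 1 := ⟨c.ej t - 1, by omega⟩
    obtain ⟨k1, k2, k3⟩ := comp (m := m) (j := n) (by omega) h3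
    refine ⟨_, ?_, by rw [Val, k1, k2, k3]; omega, fun j => ?_⟩
    · rw [hm, hn, add_mul, add_mul] at h1
      simp only [sh, Nat.beq, cond_true, cond_false]
      omega
    · fin_cases j <;> simp [ex, k1, k2, k3] <;> omega
  · simp only [ex, Fin.reduceFinMk, Fin.reduceEq, if_false] at h
    obtain ⟨m, hm⟩ : ∃ m, c.em t = m + 1 := ⟨c.em t - 1, by omega⟩
    obtain ⟨n, hn⟩ : ∃ n, c.ek t = n + 1 := ⟨c.ek t - 1, by omega⟩
    obtain ⟨k1, k2, k3⟩ := comp (m := m) (k := n) h2 (by omega)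
    refine ⟨_, ?_, by rw [Val, k1, k2, k3]; omega, fun j => ?_⟩
    · rw [hm, hn, add_mul] at h1
      simp only [sh, Nat.beq, cond_false]
      omega
    · fin_cases j <;> simp [ex, k1, k2, k3] <;> omega

/-- the converse -/
theorem raise (hc : c.Ok) (i : Fin 3) {s : ℕ} (hv : c.Val (c.sh i + s))
    (h : c.ex i (c.sh i + s) ≠ 0) : c.Val s := by
  obtain ⟨s', h1, h2, -⟩ := lower hc i hv h
  rwa [Nat.add_left_cancel h1]

/-- coefficients of the derivative -/
def dc (c : Cfg) (i : Fin 3) (f : ℕ → ℤ) (t : ℕ) : ℤ :=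
  if t < c.N - c.sh i then f (c.sh i + t) * c.ex i (c.sh i + t) else 0

theorem sum_dc (i : Fin 3) {M : Type*} [AddCommMonoid M] (φ : ℤ → ℕ → M)
    (h0 : ∀ t, φ 0 t = 0) (f : ℕ → ℤ) : ∑ t ∈ range c.N, φ (c.dc i f t) t =
      ∑ t ∈ range (c.N - c.sh i), φ (f (c.sh i + t) * c.ex i (c.sh i + t)) t := by
  rw [← sum_subset (range_subset_range.2 (Nat.sub_le c.N (c.sh i))) fun t _ ht => by
    rw [dc, if_neg (by simpa using ht), h0]]
  exact sum_congr rfl fun t ht => by rw [dc, if_pos (mem_range.1 ht)]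

theorem der_rep (hc : c.Ok) (i : Fin 3) (L D r : ℕ) :
    c.Rep (c.der i L (c.mkT D r)).U (c.der i L (c.mkT D r)).n (c.dc i (c.ldc D)) := by
  have hw : 2 ^ (c.u - 1) < 2 ^ c.u := Nat.pow_lt_pow_right one_lt_two (by have := hc.1; omega)
  refine ⟨?_, fun t ht => ?_, ?_⟩
  · have h1 := wts_eq hc i (de_lt D) fun t ht => by simp [de, o, ht]
    have h2 := wts_eq hc i (fun t => o_mul_lt (c := c) hw t) fun t ht => by simp [o, ht]
    rw [← VO_shl hc, ← Hb] at h2
    have h3 : c.wts i c.Hb ≤ c.Q := by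
      rw [h2]
      refine (pk_lt fun t ht => ?_).le.trans
        (Nat.pow_le_pow_right two_pos (Nat.mul_le_mul_left _ (Nat.sub_le _ _)))
      by_cases h : c.Val (c.sh i + t)
      · have h4 : c.ex i (c.sh i + t) ≤ c.B :=
          (ex_le i h).trans (((lt_N_iff hc.B_pos).1 (by omega)).le.trans hc.2.2.1)
        exact (Nat.mul_le_mul (o_mul_lt hw _).le h4).trans_lt (mul_comm c.B _ ▸ hc.bu)
      · simp [o, h]
    rw [der, mkT_U hc, Nat.add_sub_cancel, Nat.cast_add, Nat.cast_sub h3, h1, h2, pk_cast, pk_cast,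
      enc, sum_dc i (fun z t => z * 2 ^ (c.w * t)) (by simp)]
    refine Int.modEq_iff_dvd.2 ⟨-1, ?_⟩
    simp only [ldc_eq, sub_mul, sum_sub_distrib]
    push_cast
    ring
  · rw [dc]
    split_ifs
    · by_cases h : c.Val (c.sh i + t)
      · rw [show c.ex i (c.sh i + t) = 0 from by_contra fun h1 => ht (raise hc i h h1)]
        simp
      · rw [ldc_supp D _ h, zero_mul]
    · rfl
  · have h1 := (mkT_rep hc D r).2.2
    rw [l1, sum_dc i (fun z _ => |z|) (by simp)]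
    refine le_trans ?_ (show c.l1 (c.ldc D) * c.M ≤ _ by
      simpa [der] using mul_le_mul_of_nonneg_right h1 (Int.natCast_nonneg c.M))
    rw [l1, sum_mul]
    conv_rhs => rw [← Nat.add_sub_cancel' (sh_le hc i), sum_range_add]
    refine le_add_of_nonneg_of_le (sum_nonneg fun _ _ => by positivity)
      (sum_le_sum fun t ht => ?_)
    rw [abs_mul, Nat.abs_cast]
    by_cases h : c.Val (c.sh i + t)
    · have := mem_range.1 ht
      exact mul_le_mul_of_nonneg_left (Int.ofNat_le.2 ((ex_le i h).trans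
        ((lt_N_iff hc.B_pos).1 (by omega)).le)) (abs_nonneg _)
    · simp [ldc_supp D _ h]

variable {A : Type*} [CommRing A] [Algebra ℝ A] {X : Fin 3 → A} {ν : Seminorm ℝ A}
  {p : A} {a : T}

omit [Algebra ℝ A] in
theorem mono_ex (t : ℕ) : c.mono X t = X 0 ^ c.ex 0 t * X 1 ^ c.ex 1 t * X 2 ^ c.ex 2 t := rfl

theorem der_ev (hc : c.Ok) (i : Fin 3) (δ : Derivation ℝ A A)
    (hδ : ∀ j, δ (X j) = if j = i then 1 else 0) {f : ℕ → ℤ} (hf : ∀ t, ¬ c.Val t → f t = 0) :
    δ (c.ev X f) = c.ev X (c.dc i f) := by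
  have h1 : ∀ t, δ (c.mono X t) = c.ex i t • (X 0 ^ (c.ex 0 t - if 0 = i then 1 else 0) *
      X 1 ^ (c.ex 1 t - if 1 = i then 1 else 0) * X 2 ^ (c.ex 2 t - if 2 = i then 1 else 0)) := by
    intro t
    simp only [mono_ex, Derivation.leibniz, Derivation.leibniz_pow, hδ]
    fin_cases i <;> simp <;> ring
  rw [ev, ev, sum_dc i (fun z t => (z : ℝ) • c.mono X t) (by simp), map_sum]
  conv_lhs => rw [← Nat.add_sub_cancel' (sh_le hc i), sum_range_add]
  rw [sum_eq_zero fun t ht => ?_, zero_add]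
  · refine sum_congr rfl fun t _ => ?_
    rw [Derivation.map_smul, h1]
    by_cases h : c.Val (c.sh i + t)
    · by_cases h2 : c.ex i (c.sh i + t) = 0
      · simp [h2]
      · obtain ⟨s, h3, -, h4⟩ := lower hc i h h2
        rw [← h4, ← h4, ← h4, ← Nat.add_left_cancel h3, ← mono_ex, ← Nat.cast_smul_eq_nsmul ℝ,
          smul_smul]
        push_cast
        rfl
    · simp [hf _ h]
  · rw [Derivation.map_smul, h1]
    by_cases h : c.Val t
    · by_cases h2 : c.ex i t = 0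
      · simp [h2]
      · obtain ⟨s, h3, -⟩ := lower hc i h h2
        have := mem_range.1 ht
        omega
    · simp [hf _ h]

theorem Enc.der (hc : c.Ok) {ν' : Seminorm ℝ A} (i : Fin 3) (δ : Derivation ℝ A A)
    (hδ : ∀ j, δ (X j) = if j = i then 1 else 0) {L : ℕ} (hL : ∀ e, ν (δ e) ≤ L * ν' e)
    (h : c.Enc X ν' p a) : c.EncW X ν (δ p) (c.der i L a) := by
  obtain ⟨⟨D, h1⟩, h2⟩ := h
  refine ⟨c.dc i (c.ldc D), h1 ▸ der_rep hc i L D a.r, ?_⟩
  rw [show c.pol X a = c.ev X (c.ldc D) by rw [h1, pol_mkT hc]] at h2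
  rw [← der_ev hc i δ hδ (ldc_supp D), ← map_sub]
  refine (hL _).trans ?_
  simpa [Cfg.der, mul_comm] using mul_le_mul_of_nonneg_left h2 (Nat.cast_nonneg L)

end Cfg

end Pool.Agent.MP_48470b_gt.TM
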