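import Pool.Agent.MP_48470b_gt.TM.Slot

/-! The constants and the constructor `mkT`. -/

open Finset

namespace Pool.Agent.MP_48470b_gt.TM

theorem hor_eq (W n : ℕ) (f : ℕ → ℕ) : hor W n f = pk W n f := by
  induction n with
  | zero => rfl
  | succ n ih =>
    rw [pk, sum_range_succ, ← pk, ← ih, ← Nat.shiftLeft_eq]
    rfl

theorem pk_ext {W a n : ℕ} {f : ℕ → ℕ} (ha : a ≤ n) (h : ∀ t, a ≤ t → t < n → f t = 0) :
    pk W n f = pk W a f := by
  refine (sum_subset (range_subset_range.2 ha) fun t ht ht' => ?_).symm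
  rw [h t (by simpa using ht') (mem_range.1 ht), zero_mul]

theorem dig_div (W x a m : ℕ) : dig W (x / 2 ^ (W * a)) m = dig W x (a + m) := by
  rw [dig, dig, Nat.div_div_eq_div_mul, ← pow_add, mul_add]

theorem dig_zero {W x n m : ℕ} (hx : x < 2 ^ (W * n)) (hm : n ≤ m) : dig W x m = 0 := by
  rw [dig, Nat.div_eq_of_lt (hx.trans_le (Nat.pow_le_pow_right two_pos
    (Nat.mul_le_mul_left _ hm))), Nat.zero_mod]

theorem bs_eq (W v M0 k x : ℕ) (hx : x < 2 ^ (W * 2 ^ k)) :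
    bs W v M0 k x = pk v (2 ^ k) fun m => dig W x m % M0 := by
  induction k generalizing x with
  | zero =>
    rw [pow_zero, mul_one] at hx
    simp [bs, pk, dig, Nat.mod_eq_of_lt hx]
  | succ k ih =>
    have e : bs W v M0 (k + 1) x = bs W v M0 k (x &&& (2 ^ (W * 2 ^ k) - 1)) +
      bs W v M0 k (x >>> (W * 2 ^ k)) <<< (v * 2 ^ k) := rfl
    rw [e, Nat.and_two_pow_sub_one_eq_mod, Nat.shiftRight_eq_div_pow, Nat.shiftLeft_eq,
      ih _ (Nat.mod_lt _ (by positivity)), ih _ (Nat.div_lt_of_lt_mul (by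
        rwa [← pow_add, ← mul_add, ← two_mul, ← pow_succ'])), pow_succ, mul_two, pk_split,
      mul_comm (2 ^ _)]
    congr 1
    · exact pk_congr fun t ht => by rw [dig_mod ht]
    · congr 1
      exact pk_congr fun t _ => by rw [dig_div]

theorem dig_xor (w x y t : ℕ) : dig w (x ^^^ y) t = dig w x t ^^^ dig w y t := by
  refine Nat.eq_of_testBit_eq fun i => ?_
  unfold dig
  simp only [Nat.testBit_xor, Nat.testBit_mod_two_pow, Nat.testBit_div_two_pow]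
  cases decide (i < w) <;> simp

theorem xor_pk {w n : ℕ} {f g : ℕ → ℕ} (hf : ∀ t < n, f t < 2 ^ w) (hg : ∀ t < n, g t < 2 ^ w) :
    pk w n f ^^^ pk w n g = pk w n fun t => f t ^^^ g t := by
  rw [← Nat.mod_eq_of_lt (Nat.xor_lt_two_pow (pk_lt hf) (pk_lt hg)), ← pk_dig]
  exact pk_congr fun t ht => by rw [dig_xor, dig_pk hf ht, dig_pk hg ht]

theorem abs_digit {k x : ℕ} (hx : x < 2 ^ (k + 1)) :
    |(x : ℤ) - 2 ^ k| ≤ ((x ^^^ (2 ^ k - 1 + x / 2 ^ k % 2)) + 1 : ℕ) ∧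
      (x ^^^ (2 ^ k - 1 + x / 2 ^ k % 2)) + 1 ≤ 2 ^ k := by
  have h0 : 0 < 2 ^ k := by positivity
  have h3 : ((2 ^ k : ℕ) : ℤ) = 2 ^ k := by push_cast; rfl
  rw [← h3]
  rcases lt_or_ge x (2 ^ k) with h | h
  · have e : x ^^^ (2 ^ k - 1) = 2 ^ k - (x + 1) := Nat.eq_of_testBit_eq fun i => by
      rw [Nat.testBit_xor, Nat.testBit_two_pow_sub_one, Nat.testBit_two_pow_sub_succ h]
      by_cases hi : i < k
      · simp [hi]
      · simp [hi, Nat.testBit_lt_two_pow (h.trans_le (Nat.pow_le_pow_right two_pos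
          (not_lt.1 hi)))]
    rw [Nat.div_eq_of_lt h, Nat.zero_mod, add_zero, e, abs_le]
    omega
  · obtain ⟨z, rfl⟩ := Nat.exists_eq_add_of_le h
    have hz : z < 2 ^ k := by rw [pow_succ] at hx; omega
    have e : (2 ^ k + z) ^^^ 2 ^ k = z := by
      have h1 : 2 ^ k + z = 2 ^ k ^^^ z := Nat.eq_of_testBit_eq fun i => by
        have h2 := Nat.two_pow_add_eq_or_of_lt hz 1
        rw [mul_one] at h2
        rw [h2, Nat.testBit_or, Nat.testBit_xor, Nat.testBit_two_pow]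
        by_cases hi : k = i
        · simp [← hi, Nat.testBit_lt_two_pow hz]
        · simp [hi]
      rw [h1, Nat.xor_comm (2 ^ k), Nat.xor_xor_cancel_right]
    rw [Nat.add_div_left _ h0, Nat.div_eq_of_lt hz, show 2 ^ k - 1 + (0 + 1) % 2 = 2 ^ k by omega,
      e, abs_le]
    omega

theorem pk_cast (w n : ℕ) (f : ℕ → ℕ) :
    (pk w n f : ℤ) = ∑ t ∈ range n, (f t : ℤ) * 2 ^ (w * t) := by
  simp [pk]

namespace Cfg

variable {c : Cfg}

/-- indicator of the valid slots -/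
def o (c : Cfg) (t : ℕ) : ℕ := if c.Val t then 1 else 0

theorem o_le (t : ℕ) : c.o t ≤ 1 := by unfold o; split_ifs <;> simp

theorem Ok.pow_u (hc : c.Ok) : 2 ^ c.u = 2 * 2 ^ (c.u - 1) := by
  rw [← pow_succ', Nat.sub_add_cancel hc.1]

theorem Ok.bu (hc : c.Ok) : c.B * 2 ^ c.u < 2 ^ c.w := by
  have h1 : c.B * 2 ≤ c.N := by
    have := hc.B_pos
    calc c.B * 2 = 2 * (c.B * 1) := by ring
      _ ≤ _ := Nat.mul_le_mul hc.2.1 (Nat.mul_le_mul_left _ this)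
  have h2 := Nat.mul_le_mul_right (2 ^ (c.u - 1)) h1
  have := hc.2.2.2.2
  rw [hc.pow_u, ← mul_assoc]
  omega

theorem Ok.ult (hc : c.Ok) : 2 ^ c.u < 2 ^ c.w :=
  (Nat.le_mul_of_pos_left _ hc.B_pos).trans_lt hc.bu

theorem Ok.u_lt (hc : c.Ok) : c.u < c.w := (Nat.pow_lt_pow_iff_right one_lt_two).1 hc.ult

theorem blk_eq (m : ℕ) (hw : 0 < c.w) :
    c.blk m = pk (c.w * c.B) (m + 1) fun j => ones c.w (m + 1 - j) := by
  induction m with
  | zero => simp [blk, pk, ones_eq hw]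
  | succ m ih =>
    have e : c.blk (m + 1) = ones c.w (m + 2) + c.blk m <<< (c.w * c.B) := rfl
    rw [e, ih, add_comm (m + 1) 1, pk_split _ 1, Nat.shiftLeft_eq, mul_comm _ (2 ^ _), mul_one]
    congr 1
    · simp [pk]
    · congr 1
      exact pk_congr fun t _ => by congr 1; omega

theorem VO_eq (hc : c.Ok) : c.VO = pk c.w c.N c.o := by
  have hw : 0 < c.w := by have := hc.u_lt; omega
  rw [VO, hor_eq, N, pk_pk]
  refine pk_congr fun m hm => ?_
  have hB : m + 1 ≤ c.B := hm.trans_le hc.2.2.1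
  rw [blk_eq m hw, ← pk_ext hB fun t h1 _ => by
    rw [Nat.sub_eq_zero_of_le h1, ones_eq hw]; rfl]
  conv_rhs => rw [S, pk_pk]
  refine pk_congr fun j hj => ?_
  have e : ∀ k < c.B, c.o (m * (c.B * c.B) + (j * c.B + k)) = if j + k ≤ m then 1 else 0 := by
    intro k hk
    obtain ⟨h1, h2, h3⟩ := comp (m := m) hj hk
    rw [← add_assoc, o]
    simp only [Val, ← S.eq_1, h1, h2, h3]
  rw [pk_congr e, pk_ext (a := m + 1 - j) (by omega) fun t h1 _ => if_neg (by omega), ones_eq hw]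
  exact pk_congr fun t ht => (if_pos (by omega)).symm

theorem VO_shl (hc : c.Ok) (k : ℕ) : c.VO <<< k = pk c.w c.N fun t => c.o t * 2 ^ k := by
  rw [Nat.shiftLeft_eq, VO_eq hc, pk_mul]

theorem VO_sub (hc : c.Ok) (k : ℕ) :
    c.VO <<< k - c.VO = pk c.w c.N fun t => c.o t * (2 ^ k - 1) := by
  rw [Nat.shiftLeft_eq, ← Nat.mul_sub_one, VO_eq hc, pk_mul]

theorem o_mul_lt {k x : ℕ} (hx : x < 2 ^ k) (t : ℕ) : c.o t * x < 2 ^ k :=
  (Nat.mul_le_mul_right x (o_le t)).trans_lt (by rwa [one_mul])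

theorem Hb_lt (hc : c.Ok) : c.Hb < c.Q := by
  rw [Hb, VO_shl hc]
  exact pk_lt fun t _ => o_mul_lt (Nat.pow_lt_pow_right one_lt_two (by have := hc.u_lt; omega)) t

theorem cnt_eq (hc : c.Ok) : c.cnt = ∑ t ∈ range c.N, c.o t := by
  rw [cnt, VO_eq hc, pk_sum]
  refine lt_of_le_of_lt ?_ hc.2.2.2.2
  calc _ ≤ ∑ _t ∈ range c.N, 2 ^ (c.u - 1) :=
        sum_le_sum fun t _ => (o_le t).trans Nat.one_le_two_pow
    _ = _ := by simp

/-- offset digits -/
def de (c : Cfg) (D t : ℕ) : ℕ := c.o t * (dig c.w D t % 2 ^ c.u)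

theorem ldc_eq (D t : ℕ) : c.ldc D t = (c.de D t : ℤ) - c.o t * 2 ^ (c.u - 1) := by
  unfold ldc de o
  split_ifs <;> simp

theorem de_lt (D t : ℕ) : c.de D t < 2 ^ c.u := o_mul_lt (Nat.mod_lt _ (by positivity)) t

theorem land_VM (hc : c.Ok) (D : ℕ) : D &&& c.VM = pk c.w c.N (c.de D) := by
  rw [VM, VO_sub hc, land_pk fun t _ => o_mul_lt ((Nat.sub_le _ _).trans_lt hc.ult) t]
  refine pk_congr fun t _ => ?_
  unfold de o
  split_ifs
  · rw [one_mul, one_mul, Nat.and_two_pow_sub_one_eq_mod]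
  · simp

theorem de_pk (hc : c.Ok) (D : ℕ) {t : ℕ} (ht : t < c.N) :
    c.de (pk c.w c.N (c.de D)) t = c.de D t := by
  rw [de, dig_pk (fun s _ => (de_lt D s).trans hc.ult) ht, Nat.mod_eq_of_lt (de_lt D t), de]
  unfold o
  split_ifs <;> simp

theorem mkT_U (hc : c.Ok) (D r : ℕ) : (c.mkT D r).U = pk c.w c.N (c.de D) + c.QH := by
  rw [← land_VM hc]; rfl

theorem ldc_mkT (hc : c.Ok) (D r : ℕ) {t : ℕ} (ht : t < c.N) :
    c.ldc ((c.mkT D r).U - c.QH) t = c.ldc D t := by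
  rw [mkT_U hc, Nat.add_sub_cancel, ldc_eq, ldc_eq, de_pk hc D ht]

theorem ldc_supp (D t : ℕ) (ht : ¬ c.Val t) : c.ldc D t = 0 := if_neg ht

theorem mkT_enc (hc : c.Ok) (D r : ℕ) : ((c.mkT D r).U : ℤ) = c.enc (c.ldc D) + c.Q := by
  rw [mkT_U hc, QH, Nat.cast_add, Nat.cast_sub (Hb_lt hc).le, Hb, VO_shl hc, pk_cast, pk_cast, enc]
  simp only [ldc_eq, sub_mul, sum_sub_distrib]
  push_cast
  ring

theorem mkT_nb (hc : c.Ok) (D r : ℕ) : ∃ b : ℕ → ℕ, (c.mkT D r).nb = pk c.v c.M b ∧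
    (∀ m, c.bl (c.ldc D) m ≤ b m) ∧ ∑ m ∈ range c.M, b m = (c.mkT D r).n ∧
      (c.mkT D r).n < 2 ^ c.w - 1 := by
  have hu := hc.pow_u
  have hw := hc.ult
  have h0 : 0 < 2 ^ (c.u - 1) := by positivity
  set g : ℕ → ℕ := fun t => (c.de D t ^^^ (c.o t * (2 ^ (c.u - 1) - 1) +
    c.o t * (c.de D t / 2 ^ (c.u - 1) % 2))) + c.o t with hg
  have g1 : ∀ t, |c.ldc D t| ≤ g t ∧ g t ≤ 2 ^ (c.u - 1) := by
    intro t
    have h1 := de_lt (c := c) D t
    rw [ldc_eq]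
    simp only [hg]
    by_cases hv : c.Val t
    · rw [show c.o t = 1 from if_pos hv]
      simp only [one_mul, Nat.cast_one]
      exact abs_digit (by rwa [Nat.sub_add_cancel hc.1])
    · simp [de, show c.o t = 0 from if_neg hv]
  have e1 : pk c.w c.N (c.de D) >>> (c.u - 1) &&& c.VO =
      pk c.w c.N fun t => c.o t * (c.de D t / 2 ^ (c.u - 1) % 2) := by
    rw [VO_eq hc, land_pk fun t _ => (o_le t).trans_lt (by omega), Nat.shiftRight_eq_div_pow]
    refine pk_congr fun t ht => ?_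
    have h1 := dig_shr (k := c.u - 1) (u := 1) (w := c.w) (by have := hc.u_lt; omega)
      (pk c.w c.N (c.de D)) t
    rw [pow_one, dig_pk (fun s _ => (de_lt D s).trans hw) ht] at h1
    unfold o
    split_ifs
    · rw [Nat.and_one_is_mod, h1, one_mul]
    · simp
  have e2 : (c.mkT D r).nb = bs (c.w * c.S) c.v (2 ^ c.w - 1) c.l (pk c.w c.N g) := by
    rw [hg, ← pk_add, ← xor_pk (fun s _ => (de_lt D s).trans hw) fun t _ => by
      rw [← mul_add]; exact o_mul_lt (by omega) t, ← pk_add, ← e1, ← VO_sub hc, ← VO_eq hc,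
      ← land_VM hc]
    rfl
  have gw : ∀ t, g t < 2 ^ c.w := fun t => by have := (g1 t).2; omega
  have hs : ∑ m ∈ range c.M, ∑ s ∈ range c.S, g (m * c.S + s) < 2 ^ c.w - 1 := by
    refine lt_of_le_of_lt ?_ hc.2.2.2.2
    rw [← sum_range_mul']
    calc _ ≤ ∑ _t ∈ range (c.M * c.S), 2 ^ (c.u - 1) := sum_le_sum fun t _ => (g1 t).2
      _ = _ := by simp [N]
  have l1 : pk c.w c.N g < 2 ^ (c.w * c.S * c.M) := by
    rw [mul_assoc, mul_comm c.S]; exact pk_lt fun t _ => gw t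
  have hM : c.M ≤ 2 ^ c.l := hc.2.2.1.trans hc.2.2.2.1
  have e3 : (c.mkT D r).nb = pk c.v c.M fun m => ∑ s ∈ range c.S, g (m * c.S + s) := by
    rw [e2, bs_eq _ _ _ _ _ (l1.trans_le (Nat.pow_le_pow_right two_pos
      (Nat.mul_le_mul_left _ hM))), pk_ext hM fun t h1 _ => by rw [dig_zero l1 h1, Nat.zero_mod]]
    refine pk_congr fun m hm => ?_
    rw [N, pk_pk, dig_pk (fun s _ => pk_lt fun t _ => gw _) hm, pk_sum]
    exact lt_of_le_of_lt (single_le_sum (f := fun m => ∑ s ∈ range c.S, g (m * c.S + s))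
      (fun _ _ => Nat.zero_le _) (mem_range.2 hm)) hs
  have e4 : (c.mkT D r).n = ∑ m ∈ range c.M, ∑ s ∈ range c.S, g (m * c.S + s) := by
    rw [show (c.mkT D r).n = (c.mkT D r).nb % (2 ^ c.v - 1) from rfl, e3, pk_sum]
    have : 2 ^ c.w ≤ 2 ^ c.v := Nat.pow_le_pow_right two_pos (by unfold v; omega)
    omega
  refine ⟨_, e3, fun m => ?_, e4.symm, e4 ▸ hs⟩
  push_cast
  exact sum_le_sum fun s _ => (g1 _).1

theorem mkT_rep (hc : c.Ok) (D r : ℕ) : c.Rep (c.mkT D r).U (c.mkT D r).n (c.ldc D) := by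
  obtain ⟨b, -, h1, h2, -⟩ := mkT_nb hc D r
  refine ⟨?_, ldc_supp D, ?_⟩
  · rw [mkT_enc hc]
    exact Int.modEq_iff_dvd.2 ⟨-1, by ring⟩
  · rw [l1_eq, ← h2]
    push_cast
    exact sum_le_sum fun m _ => h1 m

variable {A : Type*} [CommRing A] [Algebra ℝ A] {X : Fin 3 → A}

theorem pol_mkT (hc : c.Ok) (D r : ℕ) : c.pol X (c.mkT D r) = c.ev X (c.ldc D) :=
  ev_congr fun _ ht => ldc_mkT hc D r ht

end Cfg

end Pool.Agent.MP_48470b_gt.TM
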