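import Pool.Agent.MP_48470b_gt.TM.Out

/-! Sharper tails, products across coefficient widths, low coefficients. -/

open Finset

namespace Pool.Agent.MP_48470b_gt.TM

variable {A : Type*} [CommRing A] [Algebra ℝ A] {X : Fin 3 → A} {ν : Seminorm ℝ A}

namespace Cfg

/-- product with the tail multiplied by `g / 2 ^ 16` -/
def mulg (c : Cfg) (g : ℕ) (a b : T) : W :=
  ⟨a.U * b.U &&& c.Q1, a.n * b.n,
    ((a.nb * b.nb) >>> (c.v * c.M) % (2 ^ c.v - 1) * g) >>> 16 + 1 +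
      (a.r * b.n + b.r * a.n + a.r * b.r)⟩

/-- `cut` with the dropped part multiplied by `g / 2 ^ 16` -/
def cutg (c c' : Cfg) (g : ℕ) (a : T) : W :=
  ⟨a.U &&& c'.Q1, a.n, a.r + ((a.nb >>> (c.v * c'.M) % (2 ^ c.v - 1) * g) >>> 16 + 1)⟩

/-- the offset digits of the first `K` slots -/
def lo (c : Cfg) (K : ℕ) (a : T) : ℕ :=
  ((a.U &&& (2 ^ (c.w * K) - 1)) + (c.Hb &&& (2 ^ (c.w * K) - 1))) &&& (2 ^ (c.w * K) - 1)

/-- the coefficient in the valid slot `t < K` -/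
def cz (c : Cfg) (K : ℕ) (a : T) (t : ℕ) : ℤ :=
  Int.subNatNat (c.lo K a >>> (c.w * t) &&& (2 ^ c.w - 1)) (2 ^ (c.u - 1))

/-- integer multiple -/
def zmul (c : Cfg) (k : ℤ) (x : W) : W :=
  match k with
  | Int.ofNat n => x.smul n
  | Int.negSucc n => c.neg (x.smul (n + 1))

variable {c c' : Cfg} {p q : A} {a b : T} {x y : W} {γ : ℝ}

variable (c X ν) in
/-- enclosure by a narrow model, independent of `u` -/
def Nar (p : A) (a : T) : Prop := ∃ (f : ℕ → ℤ) (b : ℕ → ℕ), c.Rep a.U a.n f ∧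
  a.nb = pk c.v c.M b ∧ (∀ m, c.bl f m ≤ b m) ∧ ∑ m ∈ range c.M, b m = a.n ∧
  a.n < 2 ^ c.w - 1 ∧ ν (p - c.ev X f) ≤ a.r

theorem Enc.nar (hc : c.Ok) (h : c.Enc X ν p a) : c.Nar X ν p a := by
  obtain ⟨f, b, h1, h2, -, h3, h4, h5, h6⟩ := h.1.spec (X := X) hc
  exact ⟨f, b, h1, h3, h4, h5, h6, h2 ▸ h.2⟩

theorem Nar.cfg (hB : c'.B = c.B) (hM : c'.M = c.M) (hw : c'.w = c.w) (h : c.Nar X ν p a) :
    c'.Nar X ν p a := by
  obtain ⟨B, M, w, u, l⟩ := c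
  obtain ⟨B', M', w', u', l'⟩ := c'
  dsimp only at hB hM hw
  subst hB hM hw
  exact h

theorem EncW.cfg (hB : c'.B = c.B) (hM : c'.M = c.M) (hw : c'.w = c.w) (h : c.EncW X ν p x) :
    c'.EncW X ν p x := by
  obtain ⟨B, M, w, u, l⟩ := c
  obtain ⟨B', M', w', u', l'⟩ := c'
  dsimp only at hB hM hw
  subst hB hM hw
  exact h

theorem nu_mono_le (h : Sem X ν) (hγ : ∀ i, ν (X i) ≤ γ) {t : ℕ} (ht : c.Val t) :
    ν (c.mono X t) ≤ γ ^ c.em t := by
  have h1 : ∀ i k, ν (X i ^ k) ≤ γ ^ k := fun i k => by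
    induction k with
    | zero => simpa using h.one
    | succ k ih => simpa [pow_succ] using h.mul_le ih (hγ i)
  unfold Val at ht
  refine (h.mul_le (h.mul_le (h1 0 _) (h1 1 _)) (h1 2 _)).trans (le_of_eq ?_)
  rw [← pow_add, ← pow_add]
  congr 1
  omega

theorem nu_sum' {ι : Type*} (s : Finset ι) (f : ι → ℤ) (y : ι → A) {β : ℝ}
    (hy : ∀ i ∈ s, f i ≠ 0 → ν (y i) ≤ β) :
    ν (∑ i ∈ s, f i • y i) ≤ ((∑ i ∈ s, |f i| : ℤ) : ℝ) * β := by
  push_cast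
  rw [sum_mul]
  refine (le_sum_of_subadditive ν (map_zero ν).le (map_add_le_add ν) s _).trans
    (sum_le_sum fun i hi => ?_)
  rw [← Int.cast_smul_eq_zsmul ℝ, map_smul_eq_mul, Real.norm_eq_abs]
  by_cases h : f i = 0
  · simp [h]
  · exact mul_le_mul_of_nonneg_left (hy i hi h) (abs_nonneg _)

theorem shr16 {z g : ℕ} {β : ℝ} (h : β * 2 ^ 16 ≤ g) :
    (z : ℝ) * β ≤ ((z * g) >>> 16 + 1 : ℕ) := by
  have h1 : ((z * g : ℕ) : ℝ) ≤ (2 ^ 16 * ((z * g) >>> 16 + 1) : ℕ) := by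
    rw [Nat.shiftRight_eq_div_pow]
    exact_mod_cast (Nat.lt_mul_div_succ _ (by positivity)).le
  have h2 := mul_le_mul_of_nonneg_left h (Nat.cast_nonneg z)
  push_cast at h1 ⊢
  linarith

theorem Nar.mulg (hc : c.Ok) (hν : Sem X ν) (hγ : ∀ i, ν (X i) ≤ γ) (hγ1 : γ ≤ 1) {g : ℕ}
    (hg : γ ^ c.M * 2 ^ 16 ≤ g) (ha : c.Nar X ν p a) (hb : c.Nar X ν q b) :
    c.EncW X ν (p * q) (c.mulg g a b) := by
  obtain ⟨f, u, ⟨h1, h2, h3⟩, h5, h6, h7, h8, e1⟩ := ha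
  obtain ⟨f', v, ⟨k1, k2, k3⟩, k5, k6, k7, k8, e2⟩ := hb
  have hγ0 : 0 ≤ γ := (apply_nonneg _ _).trans (hγ 0)
  refine ⟨c.conv f f', ⟨?_, conv_supp hc h2 k2, ?_⟩, ?_⟩
  · rw [Cfg.mulg, land_Q1, Int.natCast_mod, Nat.cast_mul]
    exact (Int.mod_modEq _ _).trans ((h1.mul k1).trans (enc_conv f f'))
  · refine (l1_conv f f').trans ?_
    simpa [Cfg.mulg] using mul_le_mul h3 k3 (l1_nonneg f') (Int.natCast_nonneg _)
  · have t1 : (∑ m ∈ range c.M, u m) * ∑ m ∈ range c.M, v m < 2 ^ c.v - 1 := by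
      rw [h7, k7, Cfg.v, two_mul, pow_add]
      have := Nat.mul_le_mul_left (a.n) (show b.n + 1 ≤ 2 ^ c.w by omega)
      have := Nat.mul_le_mul_right (2 ^ c.w) (show a.n + 2 ≤ 2 ^ c.w by omega)
      have : 0 < 2 ^ c.w := by positivity
      simp only [mul_add, add_mul] at *
      omega
    have e : c.ev X f * c.ev X f' - c.ev X (c.conv f f') =
        ∑ p ∈ (range c.N ×ˢ range c.N).filter (fun p => ¬ p.1 + p.2 < c.N),
          (f p.1 * f' p.2) • (c.mono X p.1 * c.mono X p.2) := by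
      rw [ev_eq, ev_eq, ev_eq, sum_conv, sum_mul_sum, ← sum_product',
        ← sum_filter_add_sum_filter_not _ (fun p : ℕ × ℕ => p.1 + p.2 < c.N), sub_eq_iff_eq_add']
      congr 1
      · refine sum_congr rfl fun p hp => ?_
        by_cases h3 : c.Val p.1
        · by_cases h4 : c.Val p.2
          · rw [mono_add hc h3 h4 (mem_filter.1 hp).2, smul_mul_smul_comm]
          · simp [k2 _ h4]
        · simp [h2 _ h3]
      · exact sum_congr rfl fun p _ => smul_mul_smul_comm _ _ _ _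
    have t2 : ν (c.ev X f * c.ev X f' - c.ev X (c.conv f f')) ≤
        (((a.nb * b.nb) >>> (c.v * c.M) % (2 ^ c.v - 1) * g) >>> 16 + 1 : ℕ) := by
      rw [e]
      refine (nu_sum' (β := γ ^ c.M) _ _ _ fun p hp h => ?_).trans
        (le_trans (mul_le_mul_of_nonneg_right ?_ (by positivity)) (shr16 hg))
      · have h3 : c.Val p.1 := by_contra fun h3 => h (by rw [h2 _ h3, zero_mul])
        have h4 : c.Val p.2 := by_contra fun h4 => h (by rw [k2 _ h4, mul_zero])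
        refine (hν.mul_le (nu_mono_le hν hγ h3) (nu_mono_le hν hγ h4)).trans ?_
        rw [← pow_add]
        exact pow_le_pow_of_le_one hγ0 hγ1
          (not_lt.1 fun h5 => (mem_filter.1 hp).2 ((add_lt_iff hc h3 h4).2 h5))
      · rw [Nat.shiftRight_eq_div_pow, h5, k5, tail_eq t1, ← Int.cast_natCast, Int.cast_le]
        simp only [abs_mul]
        refine (tail_le hc h2 k2).trans ?_
        push_cast
        exact sum_le_sum fun p _ =>
          mul_le_mul (h6 _) (k6 _) (bl_nonneg _ _) (Int.natCast_nonneg _)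
    have n1 : ν (c.ev X f) ≤ a.n := (nu_ev hν f).trans (by exact_mod_cast h3)
    have n2 : ν (c.ev X f') ≤ b.n := (nu_ev hν f').trans (by exact_mod_cast k3)
    have m1 := hν.mul_le e1 n2
    have m2 := hν.mul_le e2 n1
    have m3 := hν.mul_le e1 e2
    rw [show p * q - c.ev X (c.conv f f') = (c.ev X f * c.ev X f' - c.ev X (c.conv f f')) +
      ((p - c.ev X f) * c.ev X f' + (q - c.ev X f') * c.ev X f +
        (p - c.ev X f) * (q - c.ev X f')) by ring]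
    refine (map_add_le_add ν _ _).trans ?_
    simp only [Cfg.mulg, Nat.cast_add, Nat.cast_mul] at t2 ⊢
    exact add_le_add t2 ((map_add_le_add ν _ _).trans
      (add_le_add ((map_add_le_add ν _ _).trans (add_le_add m1 m2)) m3))

theorem Enc.cutg (hc : c.Ok) (hν : Sem X ν) (hγ : ∀ i, ν (X i) ≤ γ) (hγ1 : γ ≤ 1) {g : ℕ}
    (hg : γ ^ c'.M * 2 ^ 16 ≤ g) (hB : c'.B = c.B) (hw : c'.w = c.w) (hM : c'.M ≤ c.M)
    (h : c.Enc X ν p a) : c'.EncW X ν p (c.cutg c' g a) := by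
  obtain ⟨f, b, ⟨-, h2, h3⟩, h4, h1, h5, h6, h7, h8⟩ := h.1.spec (X := X) hc
  obtain ⟨s1, s2, s3⟩ := same (X := X) hB
  obtain ⟨M, hM⟩ := Nat.exists_eq_add_of_le hM
  have hγ0 : 0 ≤ γ := (apply_nonneg _ _).trans (hγ 0)
  have hN : c.N = c'.N + M * c.S := by rw [N, N, hM, s1, add_mul]
  refine ⟨f, ⟨?_, s2 ▸ h2, le_trans ?_ h3⟩, ?_⟩
  · rw [Cfg.cutg, land_Q1, Int.natCast_mod, h1]
    refine (Int.mod_modEq _ _).trans (Int.modEq_iff_dvd.2
      ⟨-(∑ t ∈ range (M * c.S), f (c'.N + t) * 2 ^ (c.w * t) + 2 ^ (c.w * (M * c.S))), ?_⟩)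
    rw [enc, enc, Q, Q, hN, sum_range_add, hw, mul_neg, mul_add _ (∑ _ ∈ _, _), mul_sum]
    push_cast
    rw [sum_congr rfl (g := fun t => 2 ^ (c.w * c'.N) * (f (c'.N + t) * 2 ^ (c.w * t)))
      (s₁ := range (M * c.S)) fun t _ => by ring]
    ring
  · rw [l1, l1, hN, sum_range_add]
    exact le_add_of_nonneg_right (sum_nonneg fun _ _ => abs_nonneg _)
  · have hv : 2 ^ c.w ≤ 2 ^ c.v := Nat.pow_le_pow_right two_pos (by unfold v; omega)
    rw [hM, sum_range_add] at h7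
    have e1 : a.nb >>> (c.v * c'.M) % (2 ^ c.v - 1) = ∑ m ∈ range M, b (c'.M + m) := by
      rw [Nat.shiftRight_eq_div_pow, h5, hM, pk_div fun t ht => ?_, pk_sum (by omega)]
      have := single_le_sum (f := b) (fun _ _ => Nat.zero_le _) (mem_range.2 ht)
      omega
    have e2 : ν (c.ev X f - c'.ev X f) ≤
        (((∑ m ∈ range M, b (c'.M + m)) * g) >>> 16 + 1 : ℕ) := by
      rw [ev_eq, ev_eq, hN, sum_range_add, s3, add_sub_cancel_left]
      refine (nu_sum' (β := γ ^ c'.M) _ _ _ fun t _ h => ?_).trans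
        (le_trans (mul_le_mul_of_nonneg_right ?_ (by positivity)) (shr16 hg))
      · refine (nu_mono_le hν hγ (by_contra fun h3 => h (h2 _ h3))).trans
          (pow_le_pow_of_le_one hγ0 hγ1 ?_)
        rw [em, Nat.le_div_iff_mul_le (show 0 < c.S from Nat.mul_pos hc.B_pos hc.B_pos), N, s1]
        omega
      · rw [← Int.cast_natCast, Int.cast_le, sum_range_mul']
        push_cast
        refine sum_le_sum fun m _ => le_trans (le_of_eq (sum_congr rfl fun s _ => ?_)) (h6 _)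
        rw [N, s1, add_mul, add_assoc]
    have h9 := map_add_le_add ν (p - c.ev X f) (c.ev X f - c'.ev X f)
    have h10 := h4 ▸ h.2
    rw [sub_add_sub_cancel] at h9
    simp only [Cfg.cutg, e1, Nat.cast_add] at e2 ⊢
    linarith

theorem cz_eq (hc : c.Ok) (h : c.WF a) {K t : ℕ} (hK : K ≤ c.N) (ht : t < K) (hv : c.Val t) :
    c.cz K a t = c.ldc (a.U - c.QH) t := by
  obtain ⟨D, h⟩ := h
  have h1 : a.U = pk c.w c.N (c.de D) + c.QH := by rw [h]; exact mkT_U hc _ _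
  have h2 : c.lo K a = pk c.w c.N (c.de D) % 2 ^ (c.w * K) := by
    have h3 := Hb_lt hc
    rw [lo, Nat.and_two_pow_sub_one_eq_mod, Nat.and_two_pow_sub_one_eq_mod,
      Nat.and_two_pow_sub_one_eq_mod, ← Nat.add_mod, h1, QH, add_assoc, Nat.sub_add_cancel h3.le,
      Q, Nat.add_mod, Nat.mod_eq_zero_of_dvd (pow_dvd_pow 2 (Nat.mul_le_mul_left _ hK)), add_zero,
      Nat.mod_mod]
  rw [cz, h2, Nat.and_two_pow_sub_one_eq_mod, Nat.shiftRight_eq_div_pow, ← dig, dig_mod ht,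
    h1, Nat.add_sub_cancel, ldc_eq, de_pk hc D (ht.trans_le hK),
    dig_pk (fun s _ => (de_lt D s).trans hc.ult) (ht.trans_le hK), Int.subNatNat_eq_coe]
  simp [o, hv]

/-- some coefficients explicit, the others bounded -/
theorem Enc.low (hc : c.Ok) (hν : Sem X ν) (h : c.Enc X ν p a) {K : ℕ} (hK : K ≤ c.N)
    (s : Finset ℕ) (hs : ∀ t ∈ s, t < K ∧ c.Val t) :
    ν (p - ∑ t ∈ s, (c.cz K a t : ℝ) • c.mono X t) ≤
      ((a.n + a.r - ∑ t ∈ s, |c.cz K a t| : ℤ) : ℝ) := by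
  have h1 : c.l1 (c.ldc (a.U - c.QH)) ≤ a.n := by
    obtain ⟨D, h⟩ := h.1
    rw [h]
    exact le_trans (le_of_eq (sum_congr rfl fun t ht => by
      rw [ldc_mkT hc _ _ (mem_range.1 ht)])) (mkT_rep hc D a.r).2.2
  have h2 : s ⊆ range c.N := fun t ht => mem_range.2 ((hs t ht).1.trans_le hK)
  have h3 := h.2
  rw [pol, ev_eq, ← sum_sdiff h2] at h3
  rw [l1, ← sum_sdiff h2] at h1
  have e1 : ∑ t ∈ s, (c.cz K a t : ℝ) • c.mono X t =
      ∑ t ∈ s, c.ldc (a.U - c.QH) t • c.mono X t := sum_congr rfl fun t ht => by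
    rw [cz_eq hc h.1 hK (hs t ht).1 (hs t ht).2, Int.cast_smul_eq_zsmul]
  have e2 : ∑ t ∈ s, |c.cz K a t| = ∑ t ∈ s, |c.ldc (a.U - c.QH) t| :=
    sum_congr rfl fun t ht => by rw [cz_eq hc h.1 hK (hs t ht).1 (hs t ht).2]
  rw [e1, e2]
  have h4 := nu_sum (range c.N \ s) (c.ldc (a.U - c.QH)) _ (nu_mono (c := c) hν)
  have h5 := (map_add_le_add ν _ _).trans (add_le_add h3 h4)
  rw [show ∀ u v w : A, u - (v + w) + v = u - w from fun u v w => by ring] at h5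
  refine h5.trans ?_
  rw [← Int.cast_natCast, ← Int.cast_add, Int.cast_le]
  linarith

/-- constant, linear and pure square terms -/
theorem Enc.low2 (hc : c.Ok) (hν : Sem X ν) (h : c.Enc X ν p a) (hM : 3 ≤ c.M) :
    let z := c.cz (3 * c.S) a
    ν (p - ((z 0 : ℝ) • 1 + (z c.S : ℝ) • X 0 + (z (c.S + c.B) : ℝ) • X 1 +
      (z (c.S + 1) : ℝ) • X 2 + (z (2 * c.S) : ℝ) • X 0 ^ 2 +
      (z (2 * c.S + 2 * c.B) : ℝ) • X 1 ^ 2 + (z (2 * c.S + 2) : ℝ) • X 2 ^ 2)) ≤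
      ((a.n + a.r - (|z 0| + |z c.S| + |z (c.S + c.B)| + |z (c.S + 1)| + |z (2 * c.S)| +
        |z (2 * c.S + 2 * c.B)| + |z (2 * c.S + 2)|) : ℤ) : ℝ) := by
  intro z
  have hB : 3 ≤ c.B := hM.trans hc.2.2.1
  have hS : 3 * c.B ≤ c.S := Nat.mul_le_mul_right _ hB
  have k : ∀ m j k, j < 3 → k < 3 → c.em (m * c.S + j * c.B + k) = m ∧
      c.ej (m * c.S + j * c.B + k) = j ∧ c.ek (m * c.S + j * c.B + k) = k :=
    fun m j k hj hk => comp (by omega) (by omega)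
  have k1 := k 1 0 0
  have k2 := k 1 1 0
  have k3 := k 1 0 1
  have k4 := k 2 0 0
  have k5 := k 2 2 0
  have k6 := k 2 0 2
  norm_num at k1 k2 k3 k4 k5 k6
  have h1 := h.low hc hν (K := 3 * c.S) (Nat.mul_le_mul_right _ hM)
    {0, c.S, c.S + c.B, c.S + 1, 2 * c.S, 2 * c.S + 2 * c.B, 2 * c.S + 2} (by
      simp only [mem_insert, mem_singleton, forall_eq_or_imp, forall_eq, Val, k1, k2, k3, k4, k5,
        k6]
      simp only [em, ej, ek, Nat.zero_div, Nat.zero_mod]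
      omega)
  iterate 12 rw [sum_insert (by simp only [mem_insert, mem_singleton]; omega)] at h1
  simp only [sum_singleton, mono_zero, ← add_assoc] at h1
  simpa only [Cfg.mono, k1, k2, k3, k4, k5, k6, pow_zero, pow_one, mul_one, one_mul, Nat.sub_zero,
    Nat.sub_self] using h1

variable {s t : ℕ}

theorem ET.mulg {c1 c2 : Cfg} (hc : c.Ok) (h1 : c1.Ok) (h2 : c2.Ok)
    (e1 : c.B = c1.B ∧ c.M = c1.M ∧ c.w = c1.w) (e2 : c.B = c2.B ∧ c.M = c2.M ∧ c.w = c2.w)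
    (hν : Sem X ν) (hγ : ∀ i, ν (X i) ≤ γ) (hγ1 : γ ≤ 1) {g : ℕ} (hg : γ ^ c.M * 2 ^ 16 ≤ g)
    (ha : c1.ET X ν s p a) (hb : c2.ET X ν t q b) : c.EW X ν (s + t) (p * q) (c.mulg g a b) := by
  have := Nar.mulg hc hν hγ hγ1 hg ((Enc.nar h1 ha).cfg e1.1 e1.2.1 e1.2.2)
    ((Enc.nar h2 hb).cfg e2.1 e2.2.1 e2.2.2)
  rwa [smul_mul_smul_comm, ← pow_add] at this

theorem EW.cfg (hB : c'.B = c.B) (hM : c'.M = c.M) (hw : c'.w = c.w) (h : c.EW X ν s p x) :
    c'.EW X ν s p x := EncW.cfg hB hM hw h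

theorem EW.zmul (hx : c.EW X ν s p x) (k : ℤ) : c.EW X ν s ((k : A) * p) (c.zmul k x) := by
  cases k with
  | ofNat n => simpa [Cfg.zmul] using hx.smul n
  | negSucc n =>
    have := (hx.smul (n + 1)).neg
    rwa [← neg_mul, ← Int.cast_natCast, ← Int.cast_neg] at this

end Cfg

end Pool.Agent.MP_48470b_gt.TM
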