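import Pool.Agent.MP_48470b_gt.TM.Mk

/-! Soundness of the arithmetic operations. -/

open Finset

namespace Pool.Agent.MP_48470b_gt.TM

namespace Cfg

variable {c : Cfg} {A : Type*} [CommRing A] [Algebra ℝ A] {X : Fin 3 → A} {ν : Seminorm ℝ A}
  {p q : A} {a b : T} {x y : W}

theorem wf_mkT (D r : ℕ) : c.WF (c.mkT D r) := ⟨D, rfl⟩

theorem WF.setr (h : c.WF a) (r : ℕ) : c.WF (a.setr r) := by
  obtain ⟨D, h⟩ := h
  exact ⟨D, by rw [h]; rfl⟩

theorem pol_setr (a : T) (r : ℕ) : c.pol X (a.setr r) = c.pol X a := rfl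

theorem WF.of_le (h : c.WF a) {e : ℕ} (he : ν (p - c.pol X a) ≤ e) : c.Enc X ν p (a.setr e) :=
  ⟨h.setr e, he⟩

theorem WF.enc (h : c.WF a) : c.Enc X ν (c.pol X a) (a.setr 0) := h.of_le (by simp)

theorem load (hc : c.Ok) (D : ℕ) : c.Enc X ν (c.ev X (c.ldc D)) (c.mkT D 0) :=
  ⟨wf_mkT D 0, by rw [pol_mkT hc, sub_self, map_zero]; exact Nat.cast_nonneg _⟩

theorem WF.spec (hc : c.Ok) (h : c.WF a) : ∃ (f : ℕ → ℤ) (b : ℕ → ℕ), c.Rep a.U a.n f ∧
    c.pol X a = c.ev X f ∧ (a.U : ℤ) = c.enc f + c.Q ∧ a.nb = pk c.v c.M b ∧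
    (∀ m, c.bl f m ≤ b m) ∧ ∑ m ∈ range c.M, b m = a.n ∧ a.n < 2 ^ c.w - 1 := by
  obtain ⟨D, h⟩ := h
  rw [h]
  obtain ⟨b, hb⟩ := mkT_nb hc D a.r
  exact ⟨_, b, mkT_rep hc _ _, pol_mkT hc _ _, mkT_enc hc _ _, hb⟩

theorem Enc.mono {ν' : Seminorm ℝ A} (h : c.Enc X ν' p a) (hν : ∀ e, ν e ≤ ν' e) :
    c.Enc X ν p a := ⟨h.1, (hν _).trans h.2⟩

theorem Enc.lift (hc : c.Ok) (h : c.Enc X ν p a) : c.EncW X ν p a.lift := by
  obtain ⟨f, -, h1, h2, -⟩ := h.1.spec (X := X) hc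
  exact ⟨f, h1, h2 ▸ h.2⟩

theorem EncW.le (hν : Sem X ν) (h : c.EncW X ν p x) : ν p ≤ (x.n + x.r : ℕ) := by
  obtain ⟨f, ⟨-, -, h1⟩, h2⟩ := h
  have h3 := map_add_le_add ν (p - c.ev X f) (c.ev X f)
  have h4 := nu_ev (c := c) hν f
  have h5 : (c.l1 f : ℝ) ≤ x.n := by exact_mod_cast h1
  rw [sub_add_cancel] at h3
  push_cast
  linarith

theorem Enc.le (hc : c.Ok) (hν : Sem X ν) (h : c.Enc X ν p a) : ν p ≤ (a.n + a.r : ℕ) :=
  (h.lift hc).le hν

theorem EncW.add (hx : c.EncW X ν p x) (hy : c.EncW X ν q y) : c.EncW X ν (p + q) (x.add y) := by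
  obtain ⟨f, ⟨h1, h2, h3⟩, h4⟩ := hx
  obtain ⟨g, ⟨k1, k2, k3⟩, k4⟩ := hy
  refine ⟨f + g, ⟨?_, fun t ht => by simp [h2 t ht, k2 t ht], ?_⟩, ?_⟩
  · rw [enc_add]
    exact_mod_cast h1.add k1
  · refine le_trans ?_ (show c.l1 f + c.l1 g ≤ _ by simpa [W.add] using add_le_add h3 k3)
    rw [l1, l1, l1, ← sum_add_distrib]
    exact sum_le_sum fun t _ => abs_add_le _ _
  · rw [ev_add, add_sub_add_comm]
    exact (map_add_le_add ν _ _).trans (by simpa [W.add] using add_le_add h4 k4)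

theorem land_Q1 (U : ℕ) : U &&& c.Q1 = U % c.Q := Nat.and_two_pow_sub_one_eq_mod _ _

theorem Q_pos : 0 < c.Q := by unfold Q; positivity

theorem EncW.neg (hx : c.EncW X ν p x) : c.EncW X ν (-p) (c.neg x) := by
  obtain ⟨f, ⟨h1, h2, h3⟩, h4⟩ := hx
  refine ⟨-f, ⟨?_, fun t ht => by simp [h2 t ht], by simpa [l1, Cfg.neg] using h3⟩, ?_⟩
  · rw [enc_neg, Cfg.neg, land_Q1, Nat.cast_sub (Nat.mod_lt _ Q_pos).le, Int.natCast_mod]
    simpa using (Int.modulus_modEq_zero (n := c.Q)).sub ((Int.mod_modEq _ _).trans h1)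
  · rwa [ev_neg, ← neg_sub', map_neg_eq_map]

theorem EncW.sub (hx : c.EncW X ν p x) (hy : c.EncW X ν q y) :
    c.EncW X ν (p - q) (c.sub x y) := by
  rw [sub_eq_add_neg]
  exact hx.add hy.neg

theorem EncW.smul (hx : c.EncW X ν p x) (k : ℕ) : c.EncW X ν ((k : ℝ) • p) (x.smul k) := by
  obtain ⟨f, ⟨h1, h2, h3⟩, h4⟩ := hx
  refine ⟨(k : ℤ) • f, ⟨?_, fun t ht => by simp [h2 t ht], ?_⟩, ?_⟩
  · rw [enc_smul]
    exact_mod_cast h1.mul_right k
  · refine le_trans (le_of_eq ?_) (show c.l1 f * k ≤ _ by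
      simpa [W.smul] using mul_le_mul_of_nonneg_right h3 (Int.natCast_nonneg k))
    simp [l1, mul_sum, abs_mul, mul_comm]
  · rw [ev_smul, Int.cast_natCast, ← smul_sub, map_smul_eq_mul, Real.norm_natCast, mul_comm]
    simpa [W.smul] using mul_le_mul_of_nonneg_right h4 (Nat.cast_nonneg k)

theorem EncW.shl (hx : c.EncW X ν p x) (k : ℕ) : c.EncW X ν ((2 : ℝ) ^ k • p) (x.shl k) := by
  simpa [W.shl, W.smul, Nat.shiftLeft_eq] using hx.smul (2 ^ k)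

theorem EncW.addr (hx : c.EncW X ν p x) {e : ℕ} (he : ν (q - p) ≤ e) :
    c.EncW X ν q (x.addr e) := by
  obtain ⟨f, h1, h4⟩ := hx
  refine ⟨f, h1, ?_⟩
  have := map_add_le_add ν (q - p) (p - c.ev X f)
  rw [sub_add_sub_cancel] at this
  simp only [W.addr]
  push_cast
  linarith

theorem single {s : ℕ} (hs : s < c.N) (hv : c.Val s) (k : ℕ) :
    c.EncW X ν ((k : ℝ) • c.mono X s) ⟨k <<< (c.w * s), k, 0⟩ := by
  refine ⟨fun t => if t = s then k else 0, ⟨?_, fun t ht => if_neg fun h : t = s => ht (h ▸ hv), ?_⟩, ?_⟩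
  · simp [enc, hs, Nat.shiftLeft_eq]
  · simp [l1, apply_ite, hs]
  · simp [ev, hs]

theorem Ok.N_pos (hc : c.Ok) : 0 < c.N :=
  (lt_N_iff hc.B_pos).2 (by have := hc.2.1; simp [em]; omega)

theorem val_zero : c.Val 0 := by simp [Val, ej, ek]

omit [Algebra ℝ A] in
theorem mono_zero : c.mono X 0 = 1 := by simp [mono, em, ej, ek]

theorem const (hc : c.Ok) (k : ℕ) : c.EncW X ν ((k : ℝ) • 1) (W.const k) := by
  simpa [mono_zero, W.const] using single (X := X) (ν := ν) hc.N_pos val_zero k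

theorem sh_eq (hc : c.Ok) (i : Fin 3) : c.em (c.sh i) = 1 ∧
    c.ej (c.sh i) = (if i = 1 then 1 else 0) ∧ c.ek (c.sh i) = if i = 2 then 1 else 0 := by
  have hB : 1 < c.B := lt_of_lt_of_le hc.2.1 hc.2.2.1
  fin_cases i
  · simpa [sh] using comp (m := 1) hc.B_pos hc.B_pos
  · simpa [sh, Nat.beq] using comp (m := 1) hB hc.B_pos
  · simpa [sh, Nat.beq] using comp (m := 1) hc.B_pos hB

theorem var_enc (hc : c.Ok) (i : Fin 3) (k : ℕ) :
    c.EncW X ν ((k : ℝ) • X i) (c.var i k) := by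
  obtain ⟨h1, h2, h3⟩ := sh_eq hc i
  have h := single (X := X) (ν := ν) ((lt_N_iff hc.B_pos).2 (h1 ▸ hc.2.1)) (s := c.sh i)
    (by rw [Val, h1, h2, h3]; fin_cases i <;> simp) k
  rwa [show c.mono X (c.sh i) = X i by rw [mono, h1, h2, h3]; fin_cases i <;> simp] at h

theorem Enc.mul (hc : c.Ok) (hν : Sem X ν) (ha : c.Enc X ν p a) (hb : c.Enc X ν q b) :
    c.EncW X ν (p * q) (c.mul a b) := by
  obtain ⟨f, u, ⟨h1, h2, h3⟩, h4, -, h5, h6, h7, h8⟩ := ha.1.spec (X := X) hc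
  obtain ⟨g, v, ⟨k1, k2, k3⟩, k4, -, k5, k6, k7, k8⟩ := hb.1.spec (X := X) hc
  refine ⟨c.conv f g, ⟨?_, conv_supp hc h2 k2, ?_⟩, ?_⟩
  · rw [Cfg.mul, land_Q1, Int.natCast_mod, Nat.cast_mul]
    exact (Int.mod_modEq _ _).trans ((h1.mul k1).trans (enc_conv f g))
  · refine (l1_conv f g).trans ?_
    simpa [Cfg.mul] using mul_le_mul h3 k3 (l1_nonneg g) (Int.natCast_nonneg _)
  · have t1 : (∑ m ∈ range c.M, u m) * ∑ m ∈ range c.M, v m < 2 ^ c.v - 1 := by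
      rw [h7, k7, Cfg.v, two_mul, pow_add]
      have := Nat.mul_le_mul (show a.n + 1 ≤ 2 ^ c.w - 1 from h8) k8.le
      have := Nat.mul_le_mul_left (2 ^ c.w - 1) (show b.n + 1 ≤ 2 ^ c.w by omega)
      have := Nat.mul_le_mul_left (a.n) (show b.n + 1 ≤ 2 ^ c.w by omega)
      have := Nat.mul_le_mul_right (2 ^ c.w) (show a.n + 2 ≤ 2 ^ c.w by omega)
      have : 0 < 2 ^ c.w := by positivity
      simp only [mul_add, add_mul] at *
      omega
    have t2 : ν (c.ev X f * c.ev X g - c.ev X (c.conv f g)) ≤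
        ((a.nb * b.nb) >>> (c.v * c.M) % (2 ^ c.v - 1) : ℕ) := by
      refine (ev_conv hc hν h2 k2).trans ?_
      rw [Nat.shiftRight_eq_div_pow, h5, k5, tail_eq t1, ← Int.cast_natCast, Int.cast_le]
      push_cast
      exact sum_le_sum fun p _ => mul_le_mul (h6 _) (k6 _) (bl_nonneg _ _) (Int.natCast_nonneg _)
    have e1 := h4 ▸ ha.2
    have e2 := k4 ▸ hb.2
    have n1 : ν (c.ev X f) ≤ a.n := (nu_ev hν f).trans (by exact_mod_cast h3)
    have n2 : ν (c.ev X g) ≤ b.n := (nu_ev hν g).trans (by exact_mod_cast k3)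
    have m1 := hν.mul_le e1 n2
    have m2 := hν.mul_le e2 n1
    have m3 := hν.mul_le e1 e2
    rw [show p * q - c.ev X (c.conv f g) = (c.ev X f * c.ev X g - c.ev X (c.conv f g)) +
      ((p - c.ev X f) * c.ev X g + (q - c.ev X g) * c.ev X f +
        (p - c.ev X f) * (q - c.ev X g)) by ring]
    refine (map_add_le_add ν _ _).trans ?_
    simp only [Cfg.mul, Nat.cast_add, Nat.cast_mul]
    exact add_le_add t2 ((map_add_le_add ν _ _).trans
      (add_le_add ((map_add_le_add ν _ _).trans (add_le_add m1 m2)) m3))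

theorem rnd_spec (hc : c.Ok) (σ : ℕ) {f : ℕ → ℤ} (h : c.Rep x.U x.n f) :
    ∃ D, c.rnd σ x = c.mkT D (c.rnd σ x).r ∧
      c.l1 (f - (2 ^ σ : ℤ) • c.ldc D) + x.r ≤ 2 ^ σ * (c.rnd σ x).r := by
  obtain ⟨h1, h2, h3⟩ := h
  have hP : 0 < 2 ^ σ := by positivity
  have hu := hc.1
  unfold rnd
  cases hb : (Nat.blt x.n (2 ^ (σ + c.u - 1)) && Nat.ble (σ + c.u) c.w)
  · refine ⟨c.Hb, rfl, ?_⟩
    have e : c.l1 (f - (2 ^ σ : ℤ) • c.ldc c.Hb) = c.l1 f := sum_congr rfl fun t ht => by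
      have hw : 2 ^ (c.u - 1) < 2 ^ c.u := Nat.pow_lt_pow_right one_lt_two (by omega)
      have : c.ldc c.Hb t = 0 := by
        rw [ldc_eq, de, Hb, VO_shl hc, dig_pk (fun s _ => o_mul_lt (hw.trans hc.ult) s)
          (mem_range.1 ht), Nat.mod_eq_of_lt (o_mul_lt hw t)]
        unfold o
        split_ifs <;> simp
      simp [this]
    have h4 := (Nat.lt_mul_div_succ (x.n + x.r) hP).le
    rw [← Nat.shiftRight_eq_div_pow] at h4
    have h5 : ((x.n + x.r : ℕ) : ℤ) ≤ (2 ^ σ * ((x.n + x.r) >>> σ + 1) : ℕ) := by exact_mod_cast h4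
    rw [e]
    push_cast at h5
    exact le_trans (by linarith) h5
  · simp only [Bool.and_eq_true, Nat.blt_eq, Nat.ble_eq] at hb
    refine ⟨_, rfl, ?_⟩
    set K := 2 ^ (σ + c.u - 1) with hK
    have hK2 : 2 ^ σ * 2 ^ c.u = 2 * K := by
      rw [hK, ← pow_add, ← pow_succ']; congr 1; omega
    have hK3 : 2 ^ σ * 2 ^ (c.u - 1) = K := by rw [hK, ← pow_add]; congr 1; omega
    have hw : 2 * K ≤ 2 ^ c.w := by
      rw [← hK2, ← pow_add]; exact Nat.pow_le_pow_right two_pos hb.2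
    have hf : ∀ t < c.N, ∃ e : ℕ, (e : ℤ) = f t + c.o t * K ∧ e < 2 * K := by
      intro t ht
      have h4 : |f t| ≤ c.l1 f :=
        single_le_sum (f := fun t => |f t|) (fun _ _ => abs_nonneg _) (mem_range.2 ht)
      have h5 := abs_le.1 (h4.trans h3)
      refine ⟨(f t + c.o t * K).toNat, ?_⟩
      unfold o
      split_ifs with hv
      · omega
      · rw [h2 t hv]; omega
    choose! e he1 he2 using hf
    have e1 : (x.U + c.VO <<< (σ + c.u - 1)) % 2 ^ (c.w * c.N) = pk c.w c.N e := by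
      rw [← Nat.mod_eq_of_lt (pk_lt fun t ht => (he2 t ht).trans_le hw), VO_shl hc]
      refine Int.natCast_modEq_iff.1 ?_
      rw [Nat.cast_add, pk_cast _ _ e, sum_congr rfl fun t ht => by
        rw [he1 t (mem_range.1 ht), add_mul], sum_add_distrib, pk_cast]
      exact h1.add (by simp [hK])
    have e2 : ∀ t ∈ range c.N, |(f - (2 ^ σ : ℤ) • c.ldc ((x.U + c.VO <<< (σ + c.u - 1)) >>> σ)) t|
        ≤ (c.o t * (2 ^ σ - 1) : ℕ) := by
      intro t ht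
      have ht := mem_range.1 ht
      have h4 := he1 t ht
      rw [Pi.sub_apply, Pi.smul_apply, ldc_eq, de, Nat.shiftRight_eq_div_pow, dig_shr hb.2,
        ← dig_mod ht, e1, dig_pk (fun t ht => (he2 t ht).trans_le hw) ht,
        Nat.mod_eq_of_lt (Nat.div_lt_of_lt_mul (hK2 ▸ he2 t ht))]
      unfold o at h4 ⊢
      split_ifs at h4 ⊢ with hv
      · have h5 := Nat.div_add_mod (e t) (2 ^ σ)
        have h6 := Nat.mod_lt (e t) hP
        have h7 : f t - (2 ^ σ : ℤ) • (((1 * (e t / 2 ^ σ) : ℕ) : ℤ) -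
            (1 : ℕ) * 2 ^ (c.u - 1)) = (e t % 2 ^ σ : ℕ) := by
          zify at h5 hK3 ⊢
          rw [smul_eq_mul]
          push_cast at h4
          linear_combination hK3 - h4 - h5
        rw [h7, Nat.abs_cast]
        omega
      · simp [h2 t hv]
    have e3 := sum_le_sum e2
    rw [← Nat.cast_sum, ← sum_mul, ← cnt_eq hc] at e3
    have h4 : c.cnt * (2 ^ σ - 1) + x.r ≤
        2 ^ σ * ((x.r + (c.cnt + 1) * (2 ^ σ - 1)) >>> σ) := by
      have h5 := Nat.div_add_mod (x.r + (c.cnt + 1) * (2 ^ σ - 1)) (2 ^ σ)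
      have h6 := Nat.mod_lt (x.r + (c.cnt + 1) * (2 ^ σ - 1)) hP
      rw [Nat.shiftRight_eq_div_pow]
      rw [add_mul, one_mul] at *
      omega
    exact (add_le_add_left e3 _).trans (by exact_mod_cast h4)

theorem wf_rnd (σ : ℕ) (x : W) : c.WF (c.rnd σ x) := by
  unfold rnd
  cases (Nat.blt x.n (2 ^ (σ + c.u - 1)) && Nat.ble (σ + c.u) c.w) <;> exact wf_mkT _ _

theorem EncW.rnd (hc : c.Ok) (hν : Sem X ν) (σ : ℕ) (h : c.EncW X ν ((2 : ℝ) ^ σ • p) x) :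
    c.Enc X ν p (c.rnd σ x) := by
  obtain ⟨f, h1, h2⟩ := h
  obtain ⟨D, h3, h4⟩ := rnd_spec hc σ h1
  refine ⟨wf_rnd σ x, ?_⟩
  have h5 := nu_ev (c := c) hν (f - (2 ^ σ : ℤ) • c.ldc D)
  have h6 := map_add_le_add ν ((2 : ℝ) ^ σ • p - c.ev X f) (c.ev X (f - (2 ^ σ : ℤ) • c.ldc D))
  rw [ev_sub, ev_smul, sub_add_sub_cancel] at h6
  push_cast at h6
  rw [← smul_sub, map_smul_eq_mul, Real.norm_of_nonneg (by positivity)] at h6
  rw [ev_sub, ev_smul] at h5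
  push_cast at h5
  have h7 : (c.l1 (f - (2 ^ σ : ℤ) • c.ldc D) : ℝ) + x.r ≤ 2 ^ σ * (c.rnd σ x).r := by
    exact_mod_cast h4
  rw [show c.pol X (c.rnd σ x) = c.ev X (c.ldc D) by rw [h3, pol_mkT hc]]
  exact le_of_mul_le_mul_left (by linarith) (show (0 : ℝ) < 2 ^ σ by positivity)

theorem Enc.inv (hc : c.Ok) (hν : Sem X ν) {s σ : ℕ} (ha : c.Enc X ν p a) (hb : c.WF b)
    (hq : p * q = (2 : ℝ) ^ s • 1) (hk : c.invOk s σ a b = true) :
    c.Enc X ν q (c.inv s σ a b) := by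
  have h1 := (const hc (2 ^ s)).sub (ha.mul hc hν hb.enc)
  have hP : (0 : ℝ) < 2 ^ σ := by positivity
  have hS : (0 : ℝ) < 2 ^ s := by positivity
  rw [← smul_inv_smul₀ hP.ne' (_ - _)] at h1
  have h2 := (h1.rnd hc hν σ).le hc hν
  rw [map_smul_eq_mul, Real.norm_of_nonneg (by positivity), inv_mul_le_iff₀ hP,
    mul_comm (2 ^ σ : ℝ)] at h2
  have h3 : ν (((2 ^ s : ℕ) : ℝ) • 1 - p * c.pol X b) ≤ c.invE s σ a b := by
    rw [invE, Nat.shiftLeft_eq]; exact_mod_cast h2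
  have h4 : (2 * c.invE s σ a b : ℝ) ≤ 2 ^ s := by exact_mod_cast Nat.ble_eq ▸ hk
  have h5 : ν (c.pol X b) ≤ b.n := by simpa [T.setr] using (hb.enc (ν := ν)).le hc hν
  have h6 := map_add_le_add ν (q - c.pol X b) (c.pol X b)
  rw [sub_add_cancel] at h6
  have h7 := hν.mul_le (h6.trans (add_le_add_right h5 _)) h3
  rw [show q * (((2 ^ s : ℕ) : ℝ) • 1 - p * c.pol X b) = (2 : ℝ) ^ s • (q - c.pol X b) by
    rw [mul_sub, ← mul_assoc, mul_comm q p, hq]; simp [smul_sub], map_smul_eq_mul,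
    Real.norm_of_nonneg hS.le] at h7
  refine hb.of_le (le_of_mul_le_mul_left ?_ hS)
  have h8 : ((2 * b.n * c.invE s σ a b : ℕ) : ℝ) ≤
      (2 ^ s * ((2 * b.n * c.invE s σ a b) >>> s + 1) : ℕ) := by
    rw [Nat.shiftRight_eq_div_pow]
    exact_mod_cast (Nat.lt_mul_div_succ _ (by positivity)).le
  have h9 := mul_le_mul_of_nonneg_left h4 (apply_nonneg ν (q - c.pol X b))
  push_cast at h8 ⊢
  nlinarith

end Cfg

end Pool.Agent.MP_48470b_gt.TM
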