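import Pool.Agent.MP_48470b_gt.TM.Der

/-! Range bound, change of degree, seminorms controlling derivatives, scaled statements. -/

open Finset

namespace Pool.Agent.MP_48470b_gt.TM

variable {A : Type*} [CommRing A] [Algebra ℝ A] {X : Fin 3 → A} {ν : Seminorm ℝ A}

namespace Cfg

variable {c c' : Cfg} {p q : A} {a b : T} {x y : W}

theorem Enc.rad (hc : c.Ok) (hν : Sem X ν) (h : c.Enc X ν p a) :
    ν (p - ((c.c0 a : ℝ) - 2 ^ (c.u - 1)) • 1) ≤ c.rad a := by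
  obtain ⟨⟨D, h1⟩, h2⟩ := h
  obtain ⟨b, k1, k2, k3, k4⟩ := mkT_nb hc D a.r
  have k5 := mkT_enc hc D a.r
  rw [show c.pol X a = c.ev X (c.ldc D) by rw [h1, pol_mkT hc]] at h2
  rw [← h1] at k1 k3 k4 k5
  obtain ⟨M, hM⟩ : ∃ M, c.M = 1 + M := ⟨c.M - 1, by have := hc.2.1; omega⟩
  obtain ⟨N, hN⟩ : ∃ N, c.N = N + 1 := ⟨c.N - 1, by have := hc.N_pos; omega⟩
  have e0 : c.ldc D 0 = c.de D 0 - 2 ^ (c.u - 1) := by simp [ldc_eq, o, val_zero]
  have e1 : c.c0 a = c.de D 0 := by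
    rw [c0, Nat.and_two_pow_sub_one_eq_mod, Nat.mod_add_mod,
      ← Nat.mod_eq_of_lt ((de_lt D 0).trans hc.ult)]
    refine Int.natCast_modEq_iff.1 (Int.modEq_iff_dvd.2
      ⟨-(∑ t ∈ range N, c.ldc D (t + 1) * 2 ^ (c.w * t) + 2 ^ (c.w * N)), ?_⟩)
    have e : ∑ t ∈ range N, c.ldc D (t + 1) * 2 ^ (c.w * (t + 1)) =
        2 ^ c.w * ∑ t ∈ range N, c.ldc D (t + 1) * 2 ^ (c.w * t) := by
      rw [mul_sum]
      exact sum_congr rfl fun t _ => by ring
    push_cast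
    rw [k5, enc, Q, hN, sum_range_succ', e0, e]
    push_cast
    ring
  rw [hM, sum_range_add, sum_range_one] at k3
  have e2 : a.nb % 2 ^ c.v = b 0 := by
    have : 2 ^ c.w ≤ 2 ^ c.v := Nat.pow_le_pow_right two_pos (by unfold v; omega)
    have h3 := pk_mod (w := c.v) (a := 1) (b := M) (f := b) fun t ht => by
      rw [show t = 0 by omega]; omega
    rw [mul_one] at h3
    rw [k1, hM, h3]
    simp [pk]
  set g : ℕ → ℤ := fun t => if t = 0 then 0 else c.ldc D t with hg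
  have e3 : c.ev X (c.ldc D) = c.ev X g + ((c.c0 a : ℝ) - 2 ^ (c.u - 1)) • 1 := by
    rw [ev, ev, hN, sum_range_succ', sum_range_succ', e1, e0, mono_zero]
    simp [hg]
  have e4 : c.l1 g ≤ (∑ m ∈ range M, b (1 + m) : ℕ) := by
    have hS : 0 < c.S := Nat.mul_pos hc.B_pos hc.B_pos
    rw [l1_eq, hM, sum_range_add, sum_range_one, show c.bl g 0 = 0 from sum_eq_zero fun s hs => ?_,
      zero_add]
    · push_cast
      refine sum_le_sum fun m _ => le_trans (le_of_eq (sum_congr rfl fun s _ => ?_)) (k2 (1 + m))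
      simp only [hg]
      rw [if_neg (by rw [add_mul]; omega)]
    · simp only [hg, abs_eq_zero]
      split_ifs with h0
      · rfl
      · refine ldc_supp D _ fun hv => h0 ?_
        have h3 := c.dec (0 * c.S + s)
        rw [Val, em_blk hc.B_pos 0 (mem_range.1 hs)] at hv
        rw [em_blk hc.B_pos 0 (mem_range.1 hs), show c.ej (0 * c.S + s) = 0 by omega,
          show c.ek (0 * c.S + s) = 0 by omega] at h3
        omega
  have h4 := map_add_le_add ν (p - c.ev X (c.ldc D)) (c.ev X g)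
  have h5 := (nu_ev hν g).trans (show _ ≤ ((∑ m ∈ range M, b (1 + m) : ℕ) : ℝ) by exact_mod_cast e4)
  rw [show p - c.ev X (c.ldc D) + c.ev X g = p - ((c.c0 a : ℝ) - 2 ^ (c.u - 1)) • 1 by
    rw [e3]; ring] at h4
  rw [Cfg.rad, e2, show a.n - b 0 = ∑ m ∈ range M, b (1 + m) by omega, Nat.cast_add]
  linarith

omit [Algebra ℝ A] in
theorem same (hB : c'.B = c.B) : c'.S = c.S ∧ c'.Val = c.Val ∧ c'.mono X = c.mono X := by
  refine ⟨by rw [S, S, hB], funext fun t => ?_, funext fun t => ?_⟩ <;>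
    simp only [Val, mono, em, ej, ek, S, hB]

theorem Enc.cut (hc : c.Ok) (hν : Sem X ν) (hB : c'.B = c.B) (hw : c'.w = c.w) (hM : c'.M ≤ c.M)
    (h : c.Enc X ν p a) : c'.EncW X ν p (c.cut c' a) := by
  obtain ⟨f, b, ⟨-, h2, h3⟩, h4, h1, h5, h6, h7, h8⟩ := h.1.spec (X := X) hc
  obtain ⟨s1, s2, s3⟩ := same (X := X) hB
  obtain ⟨M, hM⟩ := Nat.exists_eq_add_of_le hM
  have hN : c.N = c'.N + M * c.S := by rw [N, N, hM, s1, add_mul]
  refine ⟨f, ⟨?_, s2 ▸ h2, le_trans ?_ h3⟩, ?_⟩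
  · rw [Cfg.cut, land_Q1, Int.natCast_mod, h1]
    refine (Int.mod_modEq _ _).trans (Int.modEq_iff_dvd.2
      ⟨-(∑ t ∈ range (M * c.S), f (c'.N + t) * 2 ^ (c.w * t) + 2 ^ (c.w * (M * c.S))), ?_⟩)
    rw [enc, enc, Q, Q, hN, sum_range_add, hw, mul_neg, mul_add _ (∑ _ ∈ _, _), mul_sum]
    push_cast
    rw [sum_congr rfl (g := fun t => 2 ^ (c.w * c'.N) * (f (c'.N + t) * 2 ^ (c.w * t)))
      (s₁ := range (M * c.S)) fun t _ => by ring]
    ring
  · rw [l1, l1, hN, sum_range_add]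
    exact le_add_of_nonneg_right (sum_nonneg fun _ _ => abs_nonneg _)
  · have hv : 2 ^ c.w ≤ 2 ^ c.v := Nat.pow_le_pow_right two_pos (by unfold v; omega)
    rw [hM, sum_range_add] at h7
    have e1 : a.nb >>> (c.v * c'.M) % (2 ^ c.v - 1) = ∑ m ∈ range M, b (c'.M + m) := by
      rw [Nat.shiftRight_eq_div_pow, h5, hM, pk_div fun t ht => ?_, pk_sum (by omega)]
      have := single_le_sum (f := b) (fun _ _ => Nat.zero_le _) (mem_range.2 ht)
      omega
    have e2 : ν (c.ev X f - c'.ev X f) ≤ (∑ m ∈ range M, b (c'.M + m) : ℕ) := by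
      rw [ev_eq, ev_eq, hN, sum_range_add, s3, add_sub_cancel_left]
      refine (nu_sum _ _ _ fun t => nu_mono hν _).trans ?_
      rw [← Int.cast_natCast, Int.cast_le, sum_range_mul']
      push_cast
      refine sum_le_sum fun m _ => le_trans (le_of_eq (sum_congr rfl fun s _ => ?_)) (h6 _)
      rw [N, s1, add_mul, add_assoc]
    have h9 := map_add_le_add ν (p - c.ev X f) (c.ev X f - c'.ev X f)
    have h10 := h4 ▸ h.2
    rw [sub_add_sub_cancel] at h9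
    simp only [Cfg.cut, e1, Nat.cast_add]
    linarith

theorem sum_ext {M : Type*} [AddCommMonoid M] {n n' : ℕ} (hN : n ≤ n') (f : ℕ → ℤ)
    (φ : ℤ → ℕ → M) (h0 : ∀ t, φ 0 t = 0) :
    ∑ t ∈ range n', φ (if t < n then f t else 0) t = ∑ t ∈ range n, φ (f t) t := by
  rw [← sum_subset (range_subset_range.2 hN) fun t _ ht => by
    rw [if_neg (by simpa using ht), h0]]
  exact sum_congr rfl fun t ht => by rw [if_pos (mem_range.1 ht)]

theorem Enc.ext (hc : c.Ok) (hB : c'.B = c.B) (hw : c'.w = c.w) (hM : c.M ≤ c'.M)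
    (h : c.Enc X ν p a) : c'.EncW X ν p (c.ext c' a) := by
  obtain ⟨f, b, ⟨-, h2, h3⟩, h4, h1, -⟩ := h.1.spec (X := X) hc
  obtain ⟨s1, s2, s3⟩ := same (X := X) hB
  have hN : c.N ≤ c'.N := by rw [N, N, s1]; exact Nat.mul_le_mul_right _ hM
  have hQ : c.Q ≤ c'.Q := by
    rw [Q, Q, hw]; exact Nat.pow_le_pow_right two_pos (Nat.mul_le_mul_left _ hN)
  refine ⟨fun t => if t < c.N then f t else 0, ⟨?_, fun t ht => ?_, ?_⟩, ?_⟩
  · rw [Cfg.ext, Nat.cast_add, Nat.cast_sub hQ, h1, enc, enc, hw,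
      sum_ext hN f (fun z t => z * 2 ^ (c.w * t)) (by simp)]
    exact Int.modEq_iff_dvd.2 ⟨-1, by ring⟩
  · simp [h2 t (s2 ▸ ht)]
  · rwa [l1, sum_ext hN f (fun z _ => |z|) (by simp)]
  · rw [ev, s3, sum_ext hN f (fun z t => (z : ℝ) • c.mono X t) (by simp), ← ev, ← h4]
    exact h.2

/-! ### scaled statements -/

variable (c X ν) in
/-- `a` encloses `2 ^ s * p` -/
def ET (s : ℕ) (p : A) (a : T) : Prop := c.Enc X ν ((2 : ℝ) ^ s • p) a

variable (c X ν) in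
/-- `x` encloses `2 ^ s * p` -/
def EW (s : ℕ) (p : A) (x : W) : Prop := c.EncW X ν ((2 : ℝ) ^ s • p) x

variable {s t : ℕ}

theorem ET.mul (hc : c.Ok) (hν : Sem X ν) (ha : c.ET X ν s p a) (hb : c.ET X ν t q b) :
    c.EW X ν (s + t) (p * q) (c.mul a b) := by
  have := Enc.mul hc hν ha hb
  rwa [smul_mul_smul_comm, ← pow_add] at this

theorem EW.rnd (hc : c.Ok) (hν : Sem X ν) (σ : ℕ) (h : c.EW X ν (σ + s) p x) :
    c.ET X ν s p (c.rnd σ x) := EncW.rnd hc hν σ (by rwa [smul_smul, ← pow_add])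

theorem ET.lift (hc : c.Ok) (h : c.ET X ν s p a) : c.EW X ν s p a.lift := Enc.lift hc h

theorem EW.add (hx : c.EW X ν s p x) (hy : c.EW X ν s q y) : c.EW X ν s (p + q) (x.add y) := by
  rw [EW, smul_add]; exact EncW.add hx hy

theorem EW.sub (hx : c.EW X ν s p x) (hy : c.EW X ν s q y) :
    c.EW X ν s (p - q) (c.sub x y) := by
  rw [EW, smul_sub]; exact EncW.sub hx hy

theorem EW.neg (hx : c.EW X ν s p x) : c.EW X ν s (-p) (c.neg x) := by
  rw [EW, smul_neg]; exact EncW.neg hx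

theorem EW.smul (hx : c.EW X ν s p x) (k : ℕ) : c.EW X ν s ((k : A) * p) (x.smul k) := by
  rw [EW, ← nsmul_eq_mul, ← Nat.cast_smul_eq_nsmul ℝ, smul_comm]; exact EncW.smul hx k

theorem EW.shl (hx : c.EW X ν s p x) (k : ℕ) : c.EW X ν (k + s) p (x.shl k) := by
  rw [EW, pow_add, mul_smul]; exact EncW.shl hx k

/-- reading the scale as a factor -/
theorem EW.half (k : ℕ) (hx : c.EW X ν s p x) :
    c.EW X ν (s + k) (((2 : ℝ) ^ k)⁻¹ • p) x := by
  rwa [EW, pow_add, mul_smul, smul_inv_smul₀ (by positivity)]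

theorem EW.nat (hc : c.Ok) (s k : ℕ) : c.EW X ν s (k : A) (W.const (k <<< s)) := by
  have := const (X := X) (ν := ν) hc (k <<< s)
  rw [EW, ← mul_one (k : A), ← nsmul_eq_mul, ← Nat.cast_smul_eq_nsmul ℝ, smul_smul]
  simpa [Nat.shiftLeft_eq, mul_comm] using this

theorem EW.addr (hx : c.EW X ν s p x) {e : ℕ} (he : 2 ^ s * ν (q - p) ≤ e) :
    c.EW X ν s q (x.addr e) := EncW.addr hx (by
  rwa [← smul_sub, map_smul_eq_mul, Real.norm_of_nonneg (by positivity)])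

theorem ET.der (hc : c.Ok) {ν' : Seminorm ℝ A} (i : Fin 3) (δ : Derivation ℝ A A)
    (hδ : ∀ j, δ (X j) = if j = i then 1 else 0) {L : ℕ} (hL : ∀ e, ν (δ e) ≤ L * ν' e)
    (h : c.ET X ν' s p a) : c.EW X ν s (δ p) (c.der i L a) := by
  rw [EW, ← Derivation.map_smul]; exact Enc.der hc i δ hδ hL h

theorem ET.inv (hc : c.Ok) (hν : Sem X ν) {σ : ℕ} (ha : c.ET X ν s p a) (hb : c.WF b)
    (hq : p * q = 1) (hk : c.invOk (s + t) σ a b = true) :
    c.ET X ν t q (c.inv (s + t) σ a b) :=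
  Enc.inv hc hν ha hb (by rw [smul_mul_smul_comm, ← pow_add, hq]) hk

theorem ET.le (hc : c.Ok) (hν : Sem X ν) (h : c.ET X ν s p a) :
    2 ^ s * ν p ≤ (a.n + a.r : ℕ) := by
  have := Enc.le hc hν h
  rwa [map_smul_eq_mul, Real.norm_of_nonneg (by positivity)] at this

end Cfg

/-! ### seminorms controlling derivatives -/

/-- absolute value of an evaluation -/
noncomputable def nu0 (φ : A →ₐ[ℝ] ℝ) : Seminorm ℝ A := (normSeminorm ℝ ℝ).comp φ.toLinearMap

theorem nu0_apply (φ : A →ₐ[ℝ] ℝ) (u : A) : nu0 φ u = |φ u| := rfl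

/-- the seminorm of order `k` -/
noncomputable def nuk (ν : Seminorm ℝ A) (lam : NNReal) (δ : Fin 3 → Derivation ℝ A A) :
    ℕ → Seminorm ℝ A
  | 0 => ν
  | k + 1 => nuk ν lam δ k + lam • ((nuk ν lam δ k).comp (δ 0).toLinearMap +
      (nuk ν lam δ k).comp (δ 1).toLinearMap + (nuk ν lam δ k).comp (δ 2).toLinearMap)

variable {lam : NNReal} {δ : Fin 3 → Derivation ℝ A A}

theorem nuk_succ (k : ℕ) (u : A) : nuk ν lam δ (k + 1) u = nuk ν lam δ k u +
    lam * (nuk ν lam δ k (δ 0 u) + nuk ν lam δ k (δ 1 u) + nuk ν lam δ k (δ 2 u)) := rfl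

theorem nuk_le (k : ℕ) (u : A) : nuk ν lam δ k u ≤ nuk ν lam δ (k + 1) u := by
  rw [nuk_succ]
  exact le_add_of_nonneg_right (by positivity)

theorem nuk_der {L : ℕ} (hL : 1 ≤ (L : ℝ) * lam) (k : ℕ) (i : Fin 3) (u : A) :
    nuk ν lam δ k (δ i u) ≤ L * nuk ν lam δ (k + 1) u := by
  have h : nuk ν lam δ k (δ i u) ≤
      nuk ν lam δ k (δ 0 u) + nuk ν lam δ k (δ 1 u) + nuk ν lam δ k (δ 2 u) := by
    rw [← Fin.sum_univ_three fun i => nuk ν lam δ k (δ i u)]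
    exact single_le_sum (f := fun i => nuk ν lam δ k (δ i u)) (fun _ _ => apply_nonneg _ _)
      (mem_univ i)
  have h1 := mul_le_mul hL h (apply_nonneg _ _) (by positivity)
  have h2 : 0 ≤ L * nuk ν lam δ k u := by positivity
  rw [nuk_succ]
  linarith

theorem nuk_sem (hm : ∀ a b, ν (a * b) ≤ ν a * ν b) (h1 : ν 1 ≤ 1)
    (hδ : ∀ i j, δ i (X j) = if j = i then 1 else 0) (k : ℕ)
    (hX : ∀ i, ν (X i) + k * lam ≤ 1) : Sem X (nuk ν lam δ k) := by
  suffices h : (∀ a b, nuk ν lam δ k (a * b) ≤ nuk ν lam δ k a * nuk ν lam δ k b) ∧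
      nuk ν lam δ k 1 ≤ 1 ∧ ∀ i, nuk ν lam δ k (X i) ≤ ν (X i) + k * lam from
    ⟨h.1, h.2.1, fun i => (h.2.2 i).trans (hX i)⟩
  clear hX
  induction k with
  | zero => exact ⟨hm, h1, fun i => by simp [nuk]⟩
  | succ k ih =>
    obtain ⟨i1, i2, i3⟩ := ih
    refine ⟨fun a b => ?_, by simpa [nuk_succ] using i2, fun i => ?_⟩
    · have h : ∀ i, nuk ν lam δ k (δ i (a * b)) ≤ nuk ν lam δ k a * nuk ν lam δ k (δ i b) +
          nuk ν lam δ k b * nuk ν lam δ k (δ i a) := fun i => by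
        rw [Derivation.leibniz]
        exact (map_add_le_add _ _ _).trans (add_le_add (i1 _ _) (i1 _ _))
      have h2 := mul_le_mul_of_nonneg_left (add_le_add (add_le_add (h 0) (h 1)) (h 2)) lam.2
      have h3 := i1 a b
      have h4 : 0 ≤ (lam * (nuk ν lam δ k (δ 0 a) + nuk ν lam δ k (δ 1 a) +
          nuk ν lam δ k (δ 2 a))) * (lam * (nuk ν lam δ k (δ 0 b) + nuk ν lam δ k (δ 1 b) +
          nuk ν lam δ k (δ 2 b))) := by positivity
      simp only [nuk_succ, NNReal.val_eq_coe] at h2 ⊢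
      linarith
    · have h2 := mul_le_mul_of_nonneg_left i2 lam.2
      have h3 := i3 i
      rw [nuk_succ, hδ, hδ, hδ]
      simp only [NNReal.val_eq_coe] at h2
      push_cast
      fin_cases i <;> simp at h3 ⊢ <;> linarith

theorem nuk_nu0_sem (φ : A →ₐ[ℝ] ℝ) (hδ : ∀ i j, δ i (X j) = if j = i then 1 else 0) (k : ℕ)
    (hX : ∀ i, |φ (X i)| + k * lam ≤ 1) : Sem X (nuk (nu0 φ) lam δ k) :=
  nuk_sem (fun a b => by simp [nu0_apply, abs_mul]) (by simp [nu0_apply]) hδ k hX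

end Pool.Agent.MP_48470b_gt.TM
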