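import Pool.Agent.MP_48470b_gt.TM.Defs

/-! Slot arithmetic and the truncated product. -/

open Finset

namespace Pool.Agent.MP_48470b_gt.TM

namespace Cfg

variable {c : Cfg}

theorem Ok.B_pos (h : c.Ok) : 0 < c.B := by obtain ⟨-, h1, h2, -⟩ := h; omega

theorem comp {m j k : ℕ} (hj : j < c.B) (hk : k < c.B) :
    c.em (m * c.S + j * c.B + k) = m ∧ c.ej (m * c.S + j * c.B + k) = j ∧
      c.ek (m * c.S + j * c.B + k) = k := by
  have hB : 0 < c.B := by omega
  have e : m * c.S + j * c.B + k = k + c.B * (j + c.B * m) := by unfold S; ring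
  have h1 : (k + c.B * (j + c.B * m)) / c.B = j + c.B * m := by
    rw [Nat.add_mul_div_left _ _ hB, Nat.div_eq_of_lt hk, zero_add]
  rw [e]
  refine ⟨?_, ?_, ?_⟩
  · rw [em, S, ← Nat.div_div_eq_div_mul, h1, Nat.add_mul_div_left _ _ hB, Nat.div_eq_of_lt hj,
      zero_add]
  · rw [ej, h1, Nat.add_mul_mod_self_left, Nat.mod_eq_of_lt hj]
  · rw [ek, Nat.add_mul_mod_self_left, Nat.mod_eq_of_lt hk]

theorem dec (t : ℕ) : t = c.em t * c.S + c.ej t * c.B + c.ek t := by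
  have h1 := Nat.div_add_mod t c.B
  have h2 := Nat.div_add_mod (t / c.B) c.B
  rw [em, ej, ek, S, ← Nat.div_div_eq_div_mul]
  calc t = c.B * (c.B * (t / c.B / c.B) + t / c.B % c.B) + t % c.B := by rw [h2, h1]
    _ = _ := by ring

theorem lt_N_iff (hB : 0 < c.B) {t : ℕ} : t < c.N ↔ c.em t < c.M :=
  (Nat.div_lt_iff_lt_mul (Nat.mul_pos hB hB)).symm

theorem em_blk (hB : 0 < c.B) (m : ℕ) {s : ℕ} (hs : s < c.S) : c.em (m * c.S + s) = m := by
  rw [em, add_comm, Nat.add_mul_div_right _ _ (show 0 < c.S from Nat.mul_pos hB hB),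
    Nat.div_eq_of_lt hs, zero_add]

theorem add_slot {s t : ℕ} (hs : c.Val s) (ht : c.Val t) (h : c.em s + c.em t < c.B) :
    c.em (s + t) = c.em s + c.em t ∧ c.ej (s + t) = c.ej s + c.ej t ∧
      c.ek (s + t) = c.ek s + c.ek t := by
  unfold Val at hs ht
  have e : s + t = (c.em s + c.em t) * c.S + (c.ej s + c.ej t) * c.B + (c.ek s + c.ek t) := by
    conv_lhs => rw [c.dec s, c.dec t]
    ring
  rw [e]
  exact comp (by omega) (by omega)

theorem add_lt_iff (hc : c.Ok) {s t : ℕ} (hs : c.Val s) (ht : c.Val t) :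
    s + t < c.N ↔ c.em s + c.em t < c.M := by
  constructor
  · intro h
    have h1 : (c.em s + c.em t) * c.S < c.M * c.S := by
      have := c.dec s
      have := c.dec t
      unfold N at h
      rw [add_mul]
      omega
    exact lt_of_mul_lt_mul_right h1 (Nat.zero_le _)
  · intro h
    rw [lt_N_iff hc.B_pos, (add_slot hs ht (h.trans_le hc.2.2.1)).1]
    exact h

theorem val_add (hc : c.Ok) {s t : ℕ} (hs : c.Val s) (ht : c.Val t) (h : s + t < c.N) :
    c.Val (s + t) := by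
  obtain ⟨h1, h2, h3⟩ := add_slot hs ht (((add_lt_iff hc hs ht).1 h).trans_le hc.2.2.1)
  unfold Val at *
  omega

theorem enc_add (f g : ℕ → ℤ) : c.enc (f + g) = c.enc f + c.enc g := by
  simp only [enc, Pi.add_apply, add_mul, sum_add_distrib]

theorem enc_neg (f : ℕ → ℤ) : c.enc (-f) = -c.enc f := by
  simp only [enc, Pi.neg_apply, neg_mul, sum_neg_distrib]

theorem enc_smul (k : ℤ) (f : ℕ → ℤ) : c.enc (k • f) = c.enc f * k := by
  simp only [enc, Pi.smul_apply, smul_eq_mul, sum_mul]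
  exact sum_congr rfl fun t _ => by ring

theorem l1_nonneg (f : ℕ → ℤ) : 0 ≤ c.l1 f := sum_nonneg fun _ _ => abs_nonneg _

/-- product of coefficient families -/
def conv (c : Cfg) (f g : ℕ → ℤ) (t : ℕ) : ℤ :=
  ∑ p ∈ (range c.N ×ˢ range c.N).filter (fun p => p.1 + p.2 < c.N) with p.1 + p.2 = t,
    f p.1 * g p.2

theorem sum_conv {M : Type*} [AddCommGroup M] (f g : ℕ → ℤ) (φ : ℕ → M) :
    ∑ t ∈ range c.N, c.conv f g t • φ t =
      ∑ p ∈ (range c.N ×ˢ range c.N).filter (fun p => p.1 + p.2 < c.N),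
        (f p.1 * g p.2) • φ (p.1 + p.2) := by
  rw [← sum_fiberwise_of_maps_to (t := range c.N) (g := fun p : ℕ × ℕ => p.1 + p.2)
    (fun p hp => mem_range.2 (mem_filter.1 hp).2)]
  refine sum_congr rfl fun t _ => ?_
  rw [conv, sum_smul]
  exact sum_congr rfl fun p hp => by rw [(mem_filter.1 hp).2]

theorem enc_conv (f g : ℕ → ℤ) : c.enc f * c.enc g ≡ c.enc (c.conv f g) [ZMOD c.Q] := by
  have h := sum_conv (c := c) f g fun t => (2 : ℤ) ^ (c.w * t)
  simp only [smul_eq_mul] at h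
  rw [enc, enc, enc, h, sum_mul_sum, ← sum_product',
    ← sum_filter_add_sum_filter_not _ (fun p : ℕ × ℕ => p.1 + p.2 < c.N)]
  refine Int.ModEq.symm (Int.modEq_iff_dvd.2 ?_)
  rw [sum_congr rfl (g := fun p : ℕ × ℕ => f p.1 * g p.2 * 2 ^ (c.w * (p.1 + p.2)))
    fun p _ => by ring, add_sub_cancel_left]
  refine dvd_sum fun p hp => ?_
  have h1 := (mem_filter.1 hp).2
  rw [show f p.1 * 2 ^ (c.w * p.1) * (g p.2 * 2 ^ (c.w * p.2)) =
    f p.1 * g p.2 * 2 ^ (c.w * (p.1 + p.2)) by ring, Q]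
  push_cast
  exact Dvd.dvd.mul_left (pow_dvd_pow _ (Nat.mul_le_mul_left _ (by omega))) _

theorem l1_conv (f g : ℕ → ℤ) : c.l1 (c.conv f g) ≤ c.l1 f * c.l1 g := by
  have h := sum_conv (c := c) (fun t => |f t|) (fun t => |g t|) fun _ => (1 : ℤ)
  simp only [smul_eq_mul, mul_one] at h
  calc c.l1 (c.conv f g) ≤ ∑ t ∈ range c.N, c.conv (fun t => |f t|) (fun t => |g t|) t :=
        sum_le_sum fun t _ => (abs_sum_le_sum_abs _ _).trans
          (le_of_eq (sum_congr rfl fun p _ => abs_mul _ _))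
    _ ≤ _ := by
        rw [h, l1, l1, sum_mul_sum, ← sum_product']
        exact sum_le_sum_of_subset_of_nonneg (filter_subset _ _) fun p _ _ => by positivity

theorem conv_supp (hc : c.Ok) {f g : ℕ → ℤ} (hf : ∀ t, ¬ c.Val t → f t = 0)
    (hg : ∀ t, ¬ c.Val t → g t = 0) (t : ℕ) (ht : ¬ c.Val t) : c.conv f g t = 0 := by
  refine sum_eq_zero fun p hp => ?_
  obtain ⟨h1, h2⟩ := mem_filter.1 hp
  by_cases h3 : c.Val p.1
  · by_cases h4 : c.Val p.2
    · exact absurd (h2 ▸ val_add hc h3 h4 (mem_filter.1 h1).2) ht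
    · rw [hg _ h4, mul_zero]
  · rw [hf _ h3, zero_mul]

/-- norm of one degree -/
def bl (c : Cfg) (f : ℕ → ℤ) (m : ℕ) : ℤ := ∑ s ∈ range c.S, |f (m * c.S + s)|

theorem bl_nonneg (f : ℕ → ℤ) (m : ℕ) : 0 ≤ c.bl f m := sum_nonneg fun _ _ => abs_nonneg _

theorem l1_eq (f : ℕ → ℤ) : c.l1 f = ∑ m ∈ range c.M, c.bl f m := sum_range_mul' _ _ _

theorem tail_le (hc : c.Ok) {f g : ℕ → ℤ} (hf : ∀ t, ¬ c.Val t → f t = 0)
    (hg : ∀ t, ¬ c.Val t → g t = 0) :
    ∑ p ∈ (range c.N ×ˢ range c.N).filter (fun p => ¬ p.1 + p.2 < c.N), |f p.1| * |g p.2| ≤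
      ∑ p ∈ (range c.M ×ˢ range c.M).filter (fun p => c.M ≤ p.1 + p.2),
        c.bl f p.1 * c.bl g p.2 := by
  rw [sum_filter, sum_filter, sum_product, sum_product]
  calc _ ≤ ∑ s ∈ range c.N, ∑ t ∈ range c.N,
        if c.M ≤ c.em s + c.em t then |f s| * |g t| else 0 := by
        refine sum_le_sum fun s _ => sum_le_sum fun t _ => ?_
        by_cases h3 : c.Val s
        · by_cases h4 : c.Val t
          · simp only [add_lt_iff hc h3 h4, not_lt, le_refl]
          · simp [hg _ h4]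
        · simp [hf _ h3]
    _ = _ := by
        rw [N, sum_range_mul']
        refine sum_congr rfl fun m _ => ?_
        simp only [sum_range_mul']
        rw [sum_comm]
        refine sum_congr rfl fun m' _ => ?_
        rw [sum_congr rfl fun s hs => sum_congr rfl fun t ht => by
          rw [em_blk hc.B_pos m (mem_range.1 hs), em_blk hc.B_pos m' (mem_range.1 ht)]]
        split_ifs
        · rw [bl, bl, sum_mul_sum]
        · simp

variable {A : Type*} [CommRing A] [Algebra ℝ A] {X : Fin 3 → A} {ν : Seminorm ℝ A}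

omit [Algebra ℝ A] in
theorem mono_add (hc : c.Ok) {s t : ℕ} (hs : c.Val s) (ht : c.Val t) (h : s + t < c.N) :
    c.mono X (s + t) = c.mono X s * c.mono X t := by
  obtain ⟨h1, h2, h3⟩ := add_slot hs ht (((add_lt_iff hc hs ht).1 h).trans_le hc.2.2.1)
  unfold Val at hs ht
  rw [mono, h1, h2, h3, show c.em s + c.em t - (c.ej s + c.ej t) - (c.ek s + c.ek t) =
    (c.em s - c.ej s - c.ek s) + (c.em t - c.ej t - c.ek t) by omega, mono, mono]
  ring

theorem ev_eq (f : ℕ → ℤ) : c.ev X f = ∑ t ∈ range c.N, f t • c.mono X t := by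
  simp only [ev, Int.cast_smul_eq_zsmul]

theorem ev_add (f g : ℕ → ℤ) : c.ev X (f + g) = c.ev X f + c.ev X g := by
  simp only [ev_eq, Pi.add_apply, add_smul, sum_add_distrib]

theorem ev_neg (f : ℕ → ℤ) : c.ev X (-f) = -c.ev X f := by
  simp only [ev_eq, Pi.neg_apply, neg_smul, sum_neg_distrib]

theorem ev_sub (f g : ℕ → ℤ) : c.ev X (f - g) = c.ev X f - c.ev X g := by
  simp only [ev_eq, Pi.sub_apply, sub_smul, sum_sub_distrib]

theorem ev_smul (k : ℤ) (f : ℕ → ℤ) : c.ev X (k • f) = (k : ℝ) • c.ev X f := by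
  simp only [ev, Pi.smul_apply, smul_eq_mul, smul_sum, Int.cast_mul, mul_smul]

theorem ev_congr {f g : ℕ → ℤ} (h : ∀ t < c.N, f t = g t) : c.ev X f = c.ev X g :=
  sum_congr rfl fun t ht => by rw [h t (mem_range.1 ht)]

theorem map_ev {A' : Type*} [CommRing A'] [Algebra ℝ A'] (φ : A →ₐ[ℝ] A') (f : ℕ → ℤ) :
    φ (c.ev X f) = c.ev (fun i => φ (X i)) f := by
  simp only [ev, mono, map_sum, map_smul, map_mul, map_pow]

theorem _root_.Pool.Agent.MP_48470b_gt.TM.Sem.mul_le (h : Sem X ν) {a b : A} {x y : ℝ}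
    (ha : ν a ≤ x) (hb : ν b ≤ y) : ν (a * b) ≤ x * y :=
  (h.mul a b).trans (mul_le_mul ha hb (apply_nonneg _ _) ((apply_nonneg _ _).trans ha))

theorem _root_.Pool.Agent.MP_48470b_gt.TM.Sem.pow_le (h : Sem X ν) (i : Fin 3) (k : ℕ) :
    ν (X i ^ k) ≤ 1 := by
  induction k with
  | zero => simpa using h.one
  | succ k ih => simpa [pow_succ] using h.mul_le ih (h.var i)

theorem nu_mono (h : Sem X ν) (t : ℕ) : ν (c.mono X t) ≤ 1 := by
  simpa [mono] using h.mul_le (h.mul_le (h.pow_le 0 _) (h.pow_le 1 _)) (h.pow_le 2 _)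

theorem nu_sum {ι : Type*} (s : Finset ι) (f : ι → ℤ) (y : ι → A) (hy : ∀ i, ν (y i) ≤ 1) :
    ν (∑ i ∈ s, f i • y i) ≤ ((∑ i ∈ s, |f i| : ℤ) : ℝ) := by
  push_cast
  refine (le_sum_of_subadditive ν (map_zero ν).le (map_add_le_add ν) s _).trans
    (sum_le_sum fun i _ => ?_)
  rw [← Int.cast_smul_eq_zsmul ℝ, map_smul_eq_mul, Real.norm_eq_abs]
  exact mul_le_of_le_one_right (abs_nonneg _) (hy i)

theorem nu_ev (h : Sem X ν) (f : ℕ → ℤ) : ν (c.ev X f) ≤ c.l1 f := by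
  rw [ev_eq]
  exact nu_sum _ _ _ (nu_mono h)

theorem ev_conv (hc : c.Ok) (h : Sem X ν) {f g : ℕ → ℤ} (hf : ∀ t, ¬ c.Val t → f t = 0)
    (hg : ∀ t, ¬ c.Val t → g t = 0) :
    ν (c.ev X f * c.ev X g - c.ev X (c.conv f g)) ≤
      ((∑ p ∈ (range c.M ×ˢ range c.M).filter (fun p => c.M ≤ p.1 + p.2),
        c.bl f p.1 * c.bl g p.2 : ℤ) : ℝ) := by
  have e : c.ev X f * c.ev X g - c.ev X (c.conv f g) =
      ∑ p ∈ (range c.N ×ˢ range c.N).filter (fun p => ¬ p.1 + p.2 < c.N),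
        (f p.1 * g p.2) • (c.mono X p.1 * c.mono X p.2) := by
    rw [ev_eq, ev_eq, ev_eq, sum_conv, sum_mul_sum, ← sum_product',
      ← sum_filter_add_sum_filter_not _ (fun p : ℕ × ℕ => p.1 + p.2 < c.N), sub_eq_iff_eq_add']
    congr 1
    · refine sum_congr rfl fun p hp => ?_
      by_cases h3 : c.Val p.1
      · by_cases h4 : c.Val p.2
        · rw [mono_add hc h3 h4 (mem_filter.1 hp).2, smul_mul_smul_comm]
        · simp [hg _ h4]
      · simp [hf _ h3]
    · exact sum_congr rfl fun p _ => smul_mul_smul_comm _ _ _ _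
  rw [e]
  refine (nu_sum _ _ _ fun p => by simpa using h.mul_le (nu_mono h _) (nu_mono h _)).trans ?_
  simp only [abs_mul]
  exact_mod_cast tail_le hc hf hg

end Cfg

end Pool.Agent.MP_48470b_gt.TM
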